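import Mathlib

/-!
Project AF (MP_6540cb_lc), row AF-5a: the saturation of a submodule of `R^r` over a domain is the
kernel of an endomorphism (helper48).
-/

set_option autoImplicit false

namespace Pool.Agent.H89.LCL

theorem af5a_clear {R K : Type} [CommRing R] [IsDomain R] [Field K] [Algebra R K]
    [IsFractionRing R K] {V : Type} [AddCommGroup V] [Module R V] [Module K V]
    [IsScalarTower R K V] (N : Set V) (h0 : (0 : V) ∈ N) (hadd : ∀ x ∈ N, ∀ y ∈ N, x + y ∈ N)
    (hsmul : ∀ (a : R), ∀ x ∈ N, a • x ∈ N) (w : V) (hw : w ∈ Submodule.span K N) :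
    ∃ P : R, P ≠ 0 ∧ P • w ∈ N := by
  induction hw using Submodule.span_induction with
  | mem x hx => exact ⟨1, one_ne_zero, by rw [one_smul]; exact hx⟩
  | zero => exact ⟨1, one_ne_zero, by rw [one_smul]; exact h0⟩
  | add x y _ _ hx hy =>
    obtain ⟨P, hP, h1⟩ := hx
    obtain ⟨Q, hQ, h2⟩ := hy
    refine ⟨P * Q, mul_ne_zero hP hQ, ?_⟩
    rw [smul_add]
    apply hadd
    · rw [mul_comm, mul_smul]
      exact hsmul _ _ h1
    · rw [mul_smul]
      exact hsmul _ _ h2
  | smul c x _ hx =>
    obtain ⟨P, hP, h1⟩ := hx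
    obtain ⟨⟨a, s⟩, hs⟩ := IsLocalization.surj (nonZeroDivisors R) c
    have hs0 : (s : R) ≠ 0 := nonZeroDivisors.ne_zero s.2
    refine ⟨P * s, mul_ne_zero hP hs0, ?_⟩
    have h2 : (P * (s : R)) • (c • x) = a • (P • x) := by
      rw [← algebraMap_smul K (P * (s : R)) (c • x), ← algebraMap_smul K a (P • x),
        ← algebraMap_smul K P x, smul_smul, smul_smul, map_mul]
      congr 1
      simp only at hs
      rw [← hs]
      ring
    rw [h2]
    exact hsmul _ _ h1

/-- AF-5a, file Alg.lean -/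
theorem exists_saturation {R : Type} [CommRing R] [IsDomain R] (r : ℕ)
    (N : Submodule R (Fin r → R)) : ∃ φ : (Fin r → R) →ₗ[R] (Fin r → R),
    ∀ n, φ n = 0 ↔ ∃ P : R, P ≠ 0 ∧ P • n ∈ N := by
  classical
  let K := FractionRing R
  let ι : (Fin r → R) →ₗ[R] (Fin r → K) := (Algebra.linearMap R K).compLeft (Fin r)
  have hι : ∀ n i, ι n i = algebraMap R K (n i) := fun n i => rfl
  have hinj : Function.Injective ι := by
    intro n n' h
    funext i
    apply IsFractionRing.injective R K
    rw [← hι, ← hι, h]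
  let W : Submodule K (Fin r → K) := Submodule.span K (ι '' (N : Set (Fin r → R)))
  have hW : ∀ n, ι n ∈ W ↔ ∃ P : R, P ≠ 0 ∧ P • n ∈ N := by
    intro n
    constructor
    · intro h
      obtain ⟨P, hP, n', hn', h1⟩ := af5a_clear (R := R) (K := K) (ι '' (N : Set (Fin r → R)))
        ⟨0, N.zero_mem, map_zero _⟩
        (by
          rintro x ⟨a, ha, rfl⟩ y ⟨b, hb, rfl⟩
          exact ⟨a + b, N.add_mem ha hb, map_add _ _ _⟩)
        (by
          rintro a x ⟨b, hb, rfl⟩
          exact ⟨a • b, N.smul_mem a hb, map_smul _ _ _⟩) (ι n) h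
      refine ⟨P, hP, ?_⟩
      rw [← map_smul] at h1
      rw [← hinj h1]
      exact hn'
    · rintro ⟨P, hP, h⟩
      have hP' : algebraMap R K P ≠ 0 := by
        rwa [Ne, FaithfulSMul.algebraMap_eq_zero_iff]
      have h1 : ι (P • n) ∈ W := Submodule.subset_span ⟨_, h, rfl⟩
      have h2 : ι n = (algebraMap R K P)⁻¹ • ι (P • n) := by
        rw [map_smul, ← algebraMap_smul K P (ι n), smul_smul, inv_mul_cancel₀ hP', one_smul]
      rw [h2]
      exact W.smul_mem _ h1
  obtain ⟨W', hc⟩ := Submodule.exists_isCompl W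
  let ψ : (Fin r → K) →ₗ[K] (Fin r → K) :=
    W'.subtype ∘ₗ Submodule.projectionOnto W' W hc.symm
  have hψ : ∀ v, ψ v = 0 ↔ v ∈ W := by
    intro v
    rw [← Submodule.projectionOnto_apply_eq_zero_iff hc.symm]
    constructor
    · intro h
      exact Subtype.ext h
    · intro h
      change ((Submodule.projectionOnto W' W hc.symm v : W') : Fin r → K) = 0
      rw [h]
      rfl
  obtain ⟨b, hb⟩ := IsLocalization.exist_integer_multiples_of_finset (nonZeroDivisors R)
    (Finset.univ.image (fun p : Fin r × Fin r => ψ (Pi.single p.2 1) p.1))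
  have hb0 : algebraMap R K (b : R) ≠ 0 := by
    rw [Ne, FaithfulSMul.algebraMap_eq_zero_iff]
    exact nonZeroDivisors.ne_zero b.2
  have hA : ∀ i j, ∃ a : R, algebraMap R K a = algebraMap R K b * ψ (Pi.single j 1) i := by
    intro i j
    obtain ⟨a, ha⟩ := hb (ψ (Pi.single j 1) i) (Finset.mem_image.2 ⟨(i, j), Finset.mem_univ _, rfl⟩)
    exact ⟨a, by rw [ha, Algebra.smul_def]⟩
  choose A hA using hA
  refine ⟨Matrix.mulVecLin (Matrix.of A), fun n => ?_⟩
  have key : ι (Matrix.mulVecLin (Matrix.of A) n) = algebraMap R K (b : R) • ψ (ι n) := by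
    funext i
    rw [hι, Matrix.mulVecLin_apply]
    have h1 : ι n = ∑ j, algebraMap R K (n j) • (Pi.single j 1 : Fin r → K) := by
      funext k
      rw [hι, Finset.sum_apply, Finset.sum_eq_single k]
      · simp
      · intro j _ hj
        rw [Pi.smul_apply, Pi.single_eq_of_ne (Ne.symm hj), smul_zero]
      · intro h
        exact absurd (Finset.mem_univ _) h
    rw [h1, map_sum, Pi.smul_apply, Finset.sum_apply, smul_eq_mul, Finset.mul_sum, Matrix.mulVec,
      dotProduct, map_sum]
    refine Finset.sum_congr rfl fun j _ => ?_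
    rw [map_mul, Matrix.of_apply, hA, map_smul, Pi.smul_apply, smul_eq_mul]
    ring
  rw [← hW, ← hψ]
  constructor
  · intro h
    rw [h, map_zero] at key
    exact (smul_eq_zero.1 key.symm).resolve_left hb0
  · intro h
    apply hinj
    rw [key, h, smul_zero, map_zero]

end Pool.Agent.H89.LCL
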