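import Pool.Agent.H89.LCL.Work

/-!
The comeager sets of the free part `F(2^{ℤ^d})` form a mixing filter (`residual_mix`).
-/

open MeasureTheory Set Filter Topology

namespace Pool.Agent.H89.LCL

theorem baire_continuous_shift {d : ℕ} (g : Grid d) :
    Continuous (shift g : Cfg d Bool → Cfg d Bool) := by
  apply continuous_pi
  intro h
  exact continuous_apply (h + g)

theorem baire_isGdelta (d : ℕ) : IsGδ (FreePart d) := by
  have h : FreePart d = ⋂ g : Grid d, {x : Cfg d Bool | g ≠ 0 → shift g x ≠ x} := by
    ext x
    simp [FreePart]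
  rw [h]
  refine IsGδ.iInter fun g => IsOpen.isGδ ?_
  by_cases hg : g = 0
  · have : {x : Cfg d Bool | g ≠ 0 → shift g x ≠ x} = univ := by
      ext x
      simp [hg]
    rw [this]
    exact isOpen_univ
  · have : {x : Cfg d Bool | g ≠ 0 → shift g x ≠ x} = {x | shift g x ≠ x} := by
      ext x
      simp [hg]
    rw [this]
    exact isOpen_ne_fun (baire_continuous_shift g) continuous_id

theorem baire_isOpenMap_act {d : ℕ} (g : Grid d) :
    IsOpenMap (act g : FreePart d → FreePart d) := by
  intro U hU
  have h : act g '' U = act (-g) ⁻¹' U := by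
    ext x
    constructor
    · rintro ⟨y, hy, rfl⟩
      rw [mem_preimage, act_act]
      simpa [act_zero] using hy
    · intro hx
      refine ⟨act (-g) x, hx, ?_⟩
      rw [act_act]
      simp [act_zero]
  rw [h]
  exact hU.preimage (continuous_act _)

/-- An open set of configurations contains a cylinder around each of its points. -/
theorem baire_cylinder {d : ℕ} {V : Set (Cfg d Bool)} (hV : IsOpen V) {y : Cfg d Bool}
    (hy : y ∈ V) : ∃ n, ∀ x : Cfg d Bool, (∀ h ∈ ball d n, x h = y h) → x ∈ V := by
  obtain ⟨I, u, hu, hs⟩ := isOpen_pi_iff.1 hV y hy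
  choose k hk using fun g : Grid d => exists_mem_ball g
  refine ⟨I.sup k, fun x hx => hs ?_⟩
  intro a ha
  have h1 : a ∈ ball d (I.sup k) := ball_mono (Finset.le_sup ha) (hk a)
  rw [hx a h1]
  exact (hu a ha).2

theorem residual_mix (d : ℕ) (hd : Dense (FreePart d)) : MixFilter (residual (FreePart d)) := by
  have : BaireSpace (FreePart d) := (baire_isGdelta d).baireSpace_of_t2Space_locallyCompactSpace
  have hopen : ∀ W : Set (FreePart d), IsOpen W → W.Nonempty → ∃ᶠ x in residual (FreePart d), x ∈ W := by
    intro W hW hne h
    exact not_isMeagre_of_isOpen hW hne h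
  have hinv : ∀ g : Grid d, Tendsto (act g) (residual (FreePart d)) (residual (FreePart d)) :=
    fun g => tendsto_residual_of_isOpenMap (continuous_act g) (baire_isOpenMap_act g)
  have hne : (univ : Set (FreePart d)).Nonempty := by
    obtain ⟨x, hx⟩ := hd.nonempty
    exact ⟨⟨x, hx⟩, trivial⟩
  refine ⟨?_, inferInstance, hinv, ?_⟩
  · refine ⟨fun hbot => ?_⟩
    have := hopen univ isOpen_univ hne
    rw [hbot] at this
    exact this (by simp)
  · intro m E hE hfr
    choose U hU hEU using fun i => (hE i).residualEq_isOpen
    have hUne : ∀ i, (U i).Nonempty := by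
      intro i
      by_contra hem
      rw [not_nonempty_iff_eq_empty] at hem
      apply hfr i
      filter_upwards [(hEU i).mem_iff] with x hx hxE
      have := hx.1 hxE
      rw [hem] at this
      exact this
    choose y hy using hUne
    have hV : ∀ i, ∃ V : Set (Cfg d Bool), IsOpen V ∧ Subtype.val ⁻¹' V = U i :=
      fun i => isOpen_induced_iff.1 (hU i)
    choose V hVo hVU using hV
    have hyV : ∀ i, (y i).1 ∈ V i := by
      intro i
      have := hy i
      rw [← hVU i] at this
      exact this
    choose n hn using fun i => baire_cylinder (hVo i) (hyV i)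
    refine ⟨∑ i, n i + ∑ i, n i, fun g hg => ?_⟩
    have hle : ∀ i, n i ≤ ∑ i, n i := fun i =>
      Finset.single_le_sum (f := n) (fun _ _ => Nat.zero_le _) (Finset.mem_univ i)
    classical
    -- the common configuration
    let z : Cfg d Bool := fun h =>
      if H : ∃ i, h - g i ∈ ball d (n i) then (y H.choose).1 (h - g H.choose) else false
    have hz : ∀ i, ∀ h ∈ ball d (n i), z (h + g i) = (y i).1 h := by
      intro i h hh
      have H : ∃ j, h + g i - g j ∈ ball d (n j) := ⟨i, by simpa using hh⟩
      have hz1 : z (h + g i) = (y H.choose).1 (h + g i - g H.choose) := by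
        simp only [z]
        rw [dif_pos H]
      have hj : H.choose = i := by
        by_contra hne
        apply hg i H.choose (fun e => hne e.symm)
        have h1 := H.choose_spec
        have h2 := sub_mem_ball h1 hh
        have h3 : h + g i - g H.choose - h = g i - g H.choose := by abel
        rw [h3] at h2
        exact ball_mono (Nat.add_le_add (hle _) (hle _)) h2
      rw [hz1, hj]
      simp
    let O : Set (Cfg d Bool) := ⋂ i, ⋂ h ∈ ball d (n i), {x | x (h + g i) = (y i).1 h}
    have hO : IsOpen O := by
      refine isOpen_iInter_of_finite fun i => ?_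
      refine isOpen_biInter_finset fun h _ => ?_
      have hc : Continuous fun x : Cfg d Bool => x (h + g i) := continuous_apply (h + g i)
      exact (isOpen_discrete ({(y i).1 h} : Set Bool)).preimage hc
    have hzO : z ∈ O := by
      simp only [O, mem_iInter]
      exact fun i h hh => hz i h hh
    obtain ⟨x0, hx0O, hx0F⟩ := hd.inter_open_nonempty O hO ⟨z, hzO⟩
    have hW := hopen (Subtype.val ⁻¹' O) (hO.preimage continuous_subtype_val) ⟨⟨x0, hx0F⟩, hx0O⟩
    have hev : ∀ᶠ x in residual (FreePart d), ∀ i, (act (g i) x ∈ E i ↔ act (g i) x ∈ U i) := by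
      rw [eventually_all]
      intro i
      exact (hinv (g i)).eventually (hEU i).mem_iff
    refine (hW.and_eventually hev).mono ?_
    rintro x ⟨hxO, hx⟩ i
    rw [hx i, ← hVU i]
    apply hn i
    intro h hh
    have hxO' : x.1 ∈ O := hxO
    simp only [O, mem_iInter] at hxO'
    exact hxO' i h hh

end Pool.Agent.H89.LCL
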