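import Pool.Agent.H89.LCL.Bernoulli
import Pool.Agent.H62.BS.Defs

/-!
The measure `bern d` of `Bernoulli.lean` is the measure `coin d` of `Pool.Agent.H62.BS.Defs`.
-/

open MeasureTheory Set Filter Topology

namespace Pool.Agent.H89.LCL

theorem freePart_eq_bs (d : ℕ) : FreePart d = Pool.Agent.H62.BS.FreePart d := rfl

theorem act_eq_bs {d : ℕ} (g : Grid d) (x : FreePart d) :
    act g x = Pool.Agent.H62.BS.act g x := rfl

theorem coin_eq_uniform : coin = (PMF.uniformOfFintype Bool).toMeasure := by
  refine Measure.ext_of_singleton fun b => ?_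
  rw [coin_singleton, PMF.toMeasure_apply_singleton _ _ (measurableSet_singleton b)]
  simp

theorem bern_eq_coin (d : ℕ) : bern d = Pool.Agent.H62.BS.coin d := by
  unfold bern prodCoin Pool.Agent.H62.BS.coin
  rw [coin_eq_uniform]
  rfl

theorem mixFilter_coin (d : ℕ) :
    MixFilter (ae (Pool.Agent.H62.BS.coin d : Measure (FreePart d))) := by
  rw [← bern_eq_coin]
  exact mixFilter_bern d

end Pool.Agent.H89.LCL
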