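import Pool.Agent.H89.LCL.Work

/-!
The Bernoulli measure on the free part of `2^{ℤ^d}`: it is a probability measure, shift invariant
and mixing of all orders; the free part is dense.
-/

open MeasureTheory Set Filter Topology

namespace Pool.Agent.H89.LCL

open scoped ENNReal symmDiff

/-- The fair coin. -/
noncomputable def coin : Measure Bool :=
  (2⁻¹ : ℝ≥0∞) • Measure.dirac true + (2⁻¹ : ℝ≥0∞) • Measure.dirac false

theorem coin_singleton (b : Bool) : coin {b} = 2⁻¹ := by
  cases b <;> simp [coin]

instance : IsProbabilityMeasure coin := by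
  constructor
  simp [coin, ENNReal.inv_two_add_inv_two]

/-- The product of fair coins over the grid. -/
noncomputable def prodCoin (d : ℕ) : Measure (Cfg d Bool) :=
  Measure.infinitePi fun _ : Grid d => coin

instance (d : ℕ) : IsProbabilityMeasure (prodCoin d) := by
  unfold prodCoin
  infer_instance

theorem measurable_shift {d : ℕ} (g : Grid d) :
    Measurable (shift g : Cfg d Bool → Cfg d Bool) := by
  apply measurable_pi_lambda
  intro h
  exact measurable_pi_apply (h + g)

theorem map_shift {d : ℕ} (g : Grid d) : (prodCoin d).map (shift g) = prodCoin d := by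
  have h := Measure.map_infinitePi_infinitePi_of_inj (P := fun _ : Grid d => coin)
    (f := fun h : Grid d => h + g) (add_left_injective g)
  exact h

theorem prodCoin_shift {d : ℕ} (g : Grid d) {E : Set (Cfg d Bool)} (hE : MeasurableSet E) :
    prodCoin d (shift g ⁻¹' E) = prodCoin d E := by
  rw [← Measure.map_apply (measurable_shift g) hE, map_shift]

theorem prodCoin_pi {d : ℕ} (s : Finset (Grid d)) (b : Grid d → Bool) :
    prodCoin d (Set.pi s fun g => {b g}) = 2⁻¹ ^ s.card := by
  unfold prodCoin
  rw [Measure.infinitePi_pi]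
  · simp [coin_singleton]
  · intro i _
    exact measurableSet_singleton _

theorem measurableSet_fix {d : ℕ} (g : Grid d) :
    MeasurableSet {x : Cfg d Bool | shift g x = x} := by
  have : {x : Cfg d Bool | shift g x = x} = ⋂ h : Grid d, {x | x (h + g) = x h} := by
    ext x
    simp [shift, funext_iff]
  rw [this]
  exact MeasurableSet.iInter fun h =>
    measurableSet_eq_fun (measurable_pi_apply (h + g)) (measurable_pi_apply h)

theorem freePart_eq (d : ℕ) :
    FreePart d = ⋂ g : Grid d, ⋂ _ : g ≠ 0, {x : Cfg d Bool | shift g x = x}ᶜ := by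
  ext x
  simp [FreePart]

theorem measurableSet_freePart (d : ℕ) : MeasurableSet (FreePart d) := by
  rw [freePart_eq]
  exact MeasurableSet.iInter fun g => MeasurableSet.iInter fun _ => (measurableSet_fix g).compl

theorem fix_orbit {d : ℕ} {g : Grid d} {x : Cfg d Bool} (h : shift g x = x) (k : ℕ) :
    x (k • g) = x 0 := by
  induction k with
  | zero => simp
  | succ k ih =>
    have := congrFun h (k • g)
    rw [succ_nsmul, ← ih, ← this]
    rfl

theorem prodCoin_fix {d : ℕ} {g : Grid d} (hg : g ≠ 0) :
    prodCoin d {x : Cfg d Bool | shift g x = x} = 0 := by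
  have hinj : Function.Injective fun k : ℕ => k • g := by
    intro a b hab
    obtain ⟨i, hi⟩ := Function.ne_iff.1 hg
    have := congrFun hab i
    simp only [Pi.smul_apply, nsmul_eq_mul] at this
    exact_mod_cast mul_right_cancel₀ hi this
  have hle : ∀ n : ℕ, prodCoin d {x : Cfg d Bool | shift g x = x} ≤ 2 * 2⁻¹ ^ n := by
    intro n
    have hsub : {x : Cfg d Bool | shift g x = x} ⊆
        (Set.pi ((Finset.range n).image fun k : ℕ => k • g : Finset (Grid d)) fun _ => {true}) ∪
        (Set.pi ((Finset.range n).image fun k : ℕ => k • g : Finset (Grid d)) fun _ => {false}) := by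
      intro x hx
      rcases hb : x 0 with _ | _
      · right
        intro h hh
        simp only [Finset.coe_image, Set.mem_image] at hh
        obtain ⟨k, _, rfl⟩ := hh
        simp only [Set.mem_singleton_iff]
        rw [fix_orbit hx, hb]
      · left
        intro h hh
        simp only [Finset.coe_image, Set.mem_image] at hh
        obtain ⟨k, _, rfl⟩ := hh
        simp only [Set.mem_singleton_iff]
        rw [fix_orbit hx, hb]
    refine (measure_mono hsub).trans ((measure_union_le _ _).trans ?_)
    rw [prodCoin_pi _ fun _ => true, prodCoin_pi _ fun _ => false,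
      Finset.card_image_of_injective _ hinj, Finset.card_range, two_mul]
  have hlim : Tendsto (fun n : ℕ => (2 : ℝ≥0∞) * 2⁻¹ ^ n) atTop (𝓝 (2 * 0)) := by
    apply ENNReal.Tendsto.const_mul
    · exact ENNReal.tendsto_pow_atTop_nhds_zero_of_lt_one (by simp)
    · right
      simp
  rw [mul_zero] at hlim
  exact le_antisymm (ge_of_tendsto' hlim hle) bot_le

theorem prodCoin_compl (d : ℕ) : prodCoin d (FreePart d)ᶜ = 0 := by
  rw [freePart_eq]
  simp only [Set.compl_iInter, compl_compl]
  exact measure_iUnion_null fun g => measure_iUnion_null fun hg => prodCoin_fix hg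

theorem prodCoin_freePart (d : ℕ) : prodCoin d (FreePart d) = 1 := by
  have := prodCoin_compl d
  rwa [prob_compl_eq_zero_iff (measurableSet_freePart d)] at this

/-- The Bernoulli measure on the free part. -/
noncomputable def bern (d : ℕ) : Measure (FreePart d) := (prodCoin d).comap Subtype.val

theorem bern_apply {d : ℕ} (E : Set (FreePart d)) :
    bern d E = prodCoin d (Subtype.val '' E) :=
  comap_subtype_coe_apply (measurableSet_freePart d) _ E

theorem measurableSet_image {d : ℕ} {E : Set (FreePart d)} (hE : MeasurableSet E) :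
    MeasurableSet (Subtype.val '' E) :=
  (measurableSet_freePart d).subtype_image hE

instance (d : ℕ) : IsProbabilityMeasure (bern d) := by
  constructor
  rw [bern_apply, Set.image_univ, Subtype.range_coe, prodCoin_freePart]

theorem image_act {d : ℕ} (g : Grid d) (E : Set (FreePart d)) :
    Subtype.val '' (act g ⁻¹' E) = shift g ⁻¹' (Subtype.val '' E) := by
  ext x
  constructor
  · rintro ⟨y, hy, rfl⟩
    exact ⟨act g y, hy, rfl⟩
  · rintro ⟨y, hy, hyx⟩
    have hx : x ∈ FreePart d := by
      have : x = shift (-g) (shift g x) := by rw [shift_shift]; simp [shift_zero]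
      rw [this, ← hyx]
      exact shift_mem_freePart _ y.2
    refine ⟨⟨x, hx⟩, ?_, rfl⟩
    have : act g ⟨x, hx⟩ = y := Subtype.ext hyx.symm
    simpa [this] using hy

theorem bern_act {d : ℕ} (g : Grid d) : MeasurePreserving (act g) (bern d) (bern d) := by
  refine ⟨measurable_act g, ?_⟩
  ext E hE
  rw [Measure.map_apply (measurable_act g) hE, bern_apply, image_act,
    prodCoin_shift g (measurableSet_image hE), bern_apply]

/-- The σ-algebra of the coordinates in `S`. -/
@[reducible] def coordAlg {d : ℕ} (S : Set (Grid d)) : MeasurableSpace (Cfg d Bool) :=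
  ⨆ g ∈ S, MeasurableSpace.comap (fun x : Cfg d Bool => x g) inferInstance

theorem coordAlg_mono {d : ℕ} {S T : Set (Grid d)} (h : S ⊆ T) : coordAlg S ≤ coordAlg T :=
  biSup_mono h

theorem iIndep_coord (d : ℕ) : ProbabilityTheory.iIndep
    (fun g : Grid d => MeasurableSpace.comap (fun x : Cfg d Bool => x g) inferInstance)
    (prodCoin d) := by
  have h := ProbabilityTheory.iIndepFun_infinitePi (P := fun _ : Grid d => coin)
    (X := fun _ (b : Bool) => b) (fun _ => measurable_id)
  exact h

theorem indep_coord {d : ℕ} {S T : Set (Grid d)} (h : Disjoint S T) :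
    ProbabilityTheory.Indep (coordAlg S) (coordAlg T) (prodCoin d) :=
  ProbabilityTheory.indep_iSup_of_disjoint (fun g => (measurable_pi_apply g).comap_le)
    (iIndep_coord d) h

theorem measurable_eval_coord {d : ℕ} {S : Set (Grid d)} {g : Grid d} (hg : g ∈ S) :
    Measurable[coordAlg S] (fun x : Cfg d Bool => x g) := by
  rw [measurable_iff_comap_le]
  exact le_biSup (fun g : Grid d => MeasurableSpace.comap (fun x : Cfg d Bool => x g)
    inferInstance) hg

theorem cylinder_coord {d : ℕ} (s : Finset (Grid d)) {B : Set (s → Bool)} (hB : MeasurableSet B)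
    (g : Grid d) :
    MeasurableSet[coordAlg ((· + g) '' (s : Set (Grid d)))] (shift g ⁻¹' (cylinder s B)) := by
  have : shift g ⁻¹' (cylinder s B) = (fun (x : Cfg d Bool) (h : s) => x (h + g)) ⁻¹' B := by
    ext x
    rfl
  rw [this]
  have hm : Measurable[coordAlg ((· + g) '' (s : Set (Grid d)))]
      (fun (x : Cfg d Bool) (h : s) => x (h + g)) := by
    refine @measurable_pi_lambda _ _ _ (coordAlg _) _ _ fun h => ?_
    exact measurable_eval_coord ⟨h, h.2, rfl⟩
  exact hm hB

theorem prod_indep {d m : ℕ} (C : Fin m → Set (Cfg d Bool)) (S : Fin m → Set (Grid d))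
    (hC : ∀ i, MeasurableSet[coordAlg (S i)] (C i)) (hS : ∀ i j, i ≠ j → Disjoint (S i) (S j))
    (J : Finset (Fin m)) :
    prodCoin d (⋂ i ∈ J, C i) = ∏ i ∈ J, prodCoin d (C i) := by
  classical
  induction J using Finset.induction_on with
  | empty => simp
  | insert a J ha ih =>
    rw [Finset.prod_insert ha, Finset.set_biInter_insert, ← ih]
    have h1 : MeasurableSet[coordAlg (⋃ i ∈ J, S i)] (⋂ i ∈ J, C i) := by
      refine @Finset.measurableSet_biInter _ _ (coordAlg _) _ J fun i hi => ?_
      exact coordAlg_mono (Set.subset_biUnion_of_mem (u := S) (Finset.mem_coe.2 hi)) _ (hC i)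
    have h2 : Disjoint (S a) (⋃ i ∈ J, S i) := by
      simp only [Set.disjoint_iUnion_right]
      intro i hi
      exact hS a i fun e => ha (e ▸ hi)
    exact (ProbabilityTheory.Indep_iff _ _ _).1 (indep_coord h2) _ _ (hC a) h1

theorem exists_ball {d : ℕ} (s : Finset (Grid d)) : ∃ n, s ⊆ ball d n := by
  classical
  induction s using Finset.induction_on with
  | empty => exact ⟨0, by simp⟩
  | insert a s _ ih =>
    obtain ⟨n, hn⟩ := ih
    obtain ⟨k, hk⟩ := exists_mem_ball a
    refine ⟨n + k, ?_⟩
    intro x hx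
    rcases Finset.mem_insert.1 hx with rfl | hx
    · exact ball_mono (by omega) hk
    · exact ball_mono (by omega) (hn hx)

theorem exists_approx {d : ℕ} {E : Set (Cfg d Bool)} (hE : MeasurableSet E) {ε : ℝ} (hε : 0 < ε) :
    ∃ (s : Finset (Grid d)) (B : Set (s → Bool)), MeasurableSet B ∧
      (prodCoin d).real (E ∆ cylinder s B) < ε := by
  obtain ⟨t, ht, hlt⟩ := (Measure.MeasureDense.of_generateFrom_isSetAlgebra_finite (prodCoin d)
    (isSetAlgebra_measurableCylinders (α := fun _ : Grid d => Bool))
    generateFrom_measurableCylinders.symm).approx E hE (measure_ne_top _ _) ε hε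
  obtain ⟨s, B, hB, rfl⟩ := (mem_measurableCylinders t).1 ht
  refine ⟨s, B, hB, ?_⟩
  rw [Measure.real]
  exact (ENNReal.lt_ofReal_iff_toReal_lt (measure_ne_top _ _)).1 hlt

theorem prodCoin_mix {d m : ℕ} (E : Fin m → Set (Cfg d Bool)) (hE : ∀ i, MeasurableSet (E i))
    (hpos : ∀ i, prodCoin d (E i) ≠ 0) : ∃ w : ℕ, ∀ g : Fin m → Grid d,
      (∀ i j, i ≠ j → g i - g j ∉ ball d w) → prodCoin d (⋂ i, shift (g i) ⁻¹' (E i)) ≠ 0 := by
  classical
  obtain ⟨c, hc, hcE⟩ : ∃ c : ℝ, 0 < c ∧ ∀ i, c ≤ (prodCoin d).real (E i) := by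
    rcases Nat.eq_zero_or_pos m with rfl | hm
    · exact ⟨1, one_pos, fun i => i.elim0⟩
    · have : Nonempty (Fin m) := ⟨⟨0, hm⟩⟩
      obtain ⟨i, hi⟩ := Finite.exists_min fun i => (prodCoin d).real (E i)
      refine ⟨_, ?_, hi⟩
      exact ENNReal.toReal_pos (hpos i) (measure_ne_top _ _)
  set ε : ℝ := min (c / 2) ((c / 2) ^ m / (m + 1)) with hεdef
  have hε : 0 < ε := by
    rw [hεdef]
    positivity
  have hε1 : ε ≤ c / 2 := min_le_left _ _
  have hε2 : ε ≤ (c / 2) ^ m / (m + 1) := min_le_right _ _
  choose s B hB hBE using fun i => exists_approx (hE i) hε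
  obtain ⟨n, hn⟩ := exists_ball (Finset.univ.biUnion s)
  have hns : ∀ i, s i ⊆ ball d n := fun i =>
    (Finset.subset_biUnion_of_mem s (Finset.mem_univ i)).trans hn
  refine ⟨n + n, fun g hg h0 => ?_⟩
  have hcyl : ∀ i, MeasurableSet (cylinder (s i) (B i) : Set (Cfg d Bool)) := fun i =>
    MeasurableSet.cylinder (α := fun _ : Grid d => Bool) (s i) (hB i)
  -- the cylinders are independent
  have hprod : prodCoin d (⋂ i, shift (g i) ⁻¹' cylinder (s i) (B i)) =
      ∏ i, prodCoin d (cylinder (s i) (B i)) := by
    have := prod_indep (fun i => shift (g i) ⁻¹' cylinder (s i) (B i))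
      (fun i => (· + g i) '' (s i : Set (Grid d))) (fun i => cylinder_coord (s i) (hB i) (g i))
      (fun i j hij => by
        rw [Set.disjoint_left]
        rintro _ ⟨a, ha, rfl⟩ ⟨b, hb, hab⟩
        apply hg i j hij
        have : g i - g j = b - a := by
          simp only at hab
          rw [sub_eq_sub_iff_add_eq_add, add_comm (g i) a, hab]
        rw [this]
        exact sub_mem_ball (hns j hb) (hns i ha)) Finset.univ
    simp only [Finset.mem_univ, Set.iInter_true] at this
    rw [this]
    exact Finset.prod_congr rfl fun i _ => prodCoin_shift (g i) (hcyl i)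
  have hprod' : (prodCoin d).real (⋂ i, shift (g i) ⁻¹' cylinder (s i) (B i)) =
      ∏ i, (prodCoin d).real (cylinder (s i) (B i)) := by
    simp only [Measure.real, hprod, ENNReal.toReal_prod]
  have hlow : ∀ i, c / 2 ≤ (prodCoin d).real (cylinder (s i) (B i)) := by
    intro i
    have h1 : (prodCoin d).real (E i) ≤ (prodCoin d).real (E i ∆ cylinder (s i) (B i)) +
        (prodCoin d).real (cylinder (s i) (B i)) := by
      refine (measureReal_mono ?_).trans (measureReal_union_le _ _)
      intro x hx
      by_cases hx' : x ∈ cylinder (s i) (B i)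
      · exact Or.inr hx'
      · exact Or.inl (Or.inl ⟨hx, hx'⟩)
    have h2 := hcE i
    have h3 := hBE i
    linarith
  have hlow' : (c / 2) ^ m ≤ (prodCoin d).real (⋂ i, shift (g i) ⁻¹' cylinder (s i) (B i)) := by
    rw [hprod']
    calc (c / 2) ^ m = ∏ _i : Fin m, c / 2 := by
          rw [Finset.prod_const, Finset.card_univ, Fintype.card_fin]
      _ ≤ _ := Finset.prod_le_prod (fun _ _ => by positivity) fun i _ => hlow i
  have hup : (prodCoin d).real (⋂ i, shift (g i) ⁻¹' cylinder (s i) (B i)) ≤ m * ε := by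
    have hsub : (⋂ i, shift (g i) ⁻¹' cylinder (s i) (B i)) ⊆
        (⋂ i, shift (g i) ⁻¹' (E i)) ∪ ⋃ i, shift (g i) ⁻¹' (E i ∆ cylinder (s i) (B i)) := by
      intro x hx
      by_cases h : x ∈ ⋂ i, shift (g i) ⁻¹' (E i)
      · exact Or.inl h
      · right
        simp only [Set.mem_iInter, not_forall] at h
        obtain ⟨i, hi⟩ := h
        exact Set.mem_iUnion.2 ⟨i, Or.inr ⟨Set.mem_iInter.1 hx i, hi⟩⟩
    have h0' : (prodCoin d).real (⋂ i, shift (g i) ⁻¹' (E i)) = 0 := by
      simp [Measure.real, h0]
    calc (prodCoin d).real (⋂ i, shift (g i) ⁻¹' cylinder (s i) (B i))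
        ≤ (prodCoin d).real (⋂ i, shift (g i) ⁻¹' (E i)) +
          (prodCoin d).real (⋃ i, shift (g i) ⁻¹' (E i ∆ cylinder (s i) (B i))) :=
          (measureReal_mono hsub).trans (measureReal_union_le _ _)
      _ ≤ 0 + ∑ i, (prodCoin d).real (shift (g i) ⁻¹' (E i ∆ cylinder (s i) (B i))) := by
          rw [h0']
          exact add_le_add le_rfl (measureReal_iUnion_fintype_le _)
      _ = ∑ i, (prodCoin d).real (E i ∆ cylinder (s i) (B i)) := by
          rw [zero_add]
          refine Finset.sum_congr rfl fun i _ => ?_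
          simp only [Measure.real]
          rw [prodCoin_shift (g i) ((hE i).symmDiff (hcyl i))]
      _ ≤ ∑ _i : Fin m, ε := Finset.sum_le_sum fun i _ => (hBE i).le
      _ = m * ε := by simp
  have hmε : m * ε < (c / 2) ^ m := by
    have h1 : (m : ℝ) * ε < (m + 1) * ε := by nlinarith
    have h2 : ((m : ℝ) + 1) * ε ≤ (c / 2) ^ m := by
      have := mul_le_mul_of_nonneg_left hε2 (by positivity : (0 : ℝ) ≤ m + 1)
      rwa [mul_div_cancel₀ _ (by positivity : (m : ℝ) + 1 ≠ 0)] at this
    linarith
  linarith

theorem mixFilter_bern (d : ℕ) : MixFilter (ae (bern d)) where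
  neBot := inferInstance
  inter := inferInstance
  inv g := (bern_act g).quasiMeasurePreserving.tendsto_ae
  mix m E hE hfreq := by
    obtain ⟨w, hw⟩ := prodCoin_mix (fun i => Subtype.val '' (E i))
      (fun i => measurableSet_image (hE i)) (fun i => by
        rw [← bern_apply]
        exact frequently_ae_mem_iff.1 (hfreq i))
    refine ⟨w, fun g hg => ?_⟩
    have h1 := hw g hg
    refine (frequently_ae_mem_iff (s := {x : FreePart d | ∀ i, act (g i) x ∈ E i})).2 ?_
    rw [bern_apply]
    intro h0
    apply h1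
    have hsub : (⋂ i, shift (g i) ⁻¹' (Subtype.val '' (E i))) ⊆
        (Subtype.val '' {x : FreePart d | ∀ i, act (g i) x ∈ E i}) ∪ (FreePart d)ᶜ := by
      intro x hx
      by_cases hxF : x ∈ FreePart d
      · left
        refine ⟨⟨x, hxF⟩, fun i => ?_, rfl⟩
        have := Set.mem_iInter.1 hx i
        rw [← image_act] at this
        obtain ⟨y, hy, hyx⟩ := this
        have : y = ⟨x, hxF⟩ := Subtype.ext hyx
        rw [← this]
        exact hy
      · exact Or.inr hxF
    exact measure_mono_null hsub (measure_union_null h0 (prodCoin_compl d))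

/-- AF-3, file Bernoulli.lean -/
theorem bernoulli (d : ℕ) : ∃ μ : Measure (FreePart d), IsProbabilityMeasure μ ∧
    MixFilter (ae μ) :=
  ⟨bern d, inferInstance, mixFilter_bern d⟩

/-- AF-3, file Bernoulli.lean (or directly) -/
theorem dense_freePart (d : ℕ) : Dense (FreePart d) := by
  rw [dense_iff_inter_open]
  rintro U hU ⟨x, hx⟩
  obtain ⟨I, u, hu, hIU⟩ := isOpen_pi_iff.1 hU x hx
  by_contra hne
  rw [Set.not_nonempty_iff_eq_empty] at hne
  have hsub : (Set.pi I fun g => {x g}) ⊆ (FreePart d)ᶜ := by
    intro y hy hyF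
    have hyU : y ∈ U := by
      apply hIU
      intro a ha
      have := hy a ha
      simp only [Set.mem_singleton_iff] at this
      rw [this]
      exact (hu a ha).2
    have : y ∈ U ∩ FreePart d := ⟨hyU, hyF⟩
    rw [hne] at this
    exact this
  have h0 := measure_mono_null hsub (prodCoin_compl d)
  rw [prodCoin_pi] at h0
  simp at h0

end Pool.Agent.H89.LCL
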