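import Mathlib

/-!
Statement-level definitions for `MP_6540cb_lc`: the grid `ℤ^d`, the shift action, the free part of
`2^{ℤ^d}`, subshifts of finite type and the three solvability conditions.
-/

open MeasureTheory Set Filter Topology

namespace Pool.Agent.H89.LCL

/-- The grid `ℤ^d`. -/
abbrev Grid (d : ℕ) : Type := Fin d → ℤ

/-- Configurations `ℤ^d → A`. -/
abbrev Cfg (d : ℕ) (A : Type) : Type := Grid d → A

/-- The shift action `(g · x)(h) = x(h+g)`. -/
def shift {d : ℕ} {A : Type} (g : Grid d) (x : Cfg d A) : Cfg d A := fun h => x (h + g)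

/-- The free part `F(2^{ℤ^d})`: all `x` with `g · x ≠ x` for every `g ≠ 0`. -/
def FreePart (d : ℕ) : Set (Cfg d Bool) := {x | ∀ g : Grid d, g ≠ 0 → shift g x ≠ x}

theorem shift_shift {d : ℕ} {A : Type} (g h : Grid d) (x : Cfg d A) :
    shift g (shift h x) = shift (g + h) x := by
  funext k
  simp [shift, add_assoc]

theorem shift_zero {d : ℕ} {A : Type} (x : Cfg d A) : shift 0 x = x := by
  funext k
  simp [shift]

theorem shift_mem_freePart {d : ℕ} (g : Grid d) {x : Cfg d Bool} (hx : x ∈ FreePart d) :
    shift g x ∈ FreePart d := by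
  intro h hh he
  apply hx h hh
  have := congrArg (shift (-g)) he
  rw [shift_shift, shift_shift, shift_shift] at this
  simpa [shift_zero] using this

/-- The shift action on the free part. -/
def act {d : ℕ} (g : Grid d) (x : FreePart d) : FreePart d :=
  ⟨shift g x.1, shift_mem_freePart g x.2⟩

/-- `S` is a subshift of finite type: the set of all configurations avoiding a finite set `F` of
finite patterns (a pattern is a finite set `P.1 ⊆ ℤ^d` with a map `P.2 : P.1 → A`). -/
def IsSFT {d : ℕ} {A : Type} (S : Set (Cfg d A)) : Prop :=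
  ∃ F : Set (Σ D : Finset (Grid d), (D → A)), F.Finite ∧
    S = {x | ∀ P ∈ F, ∀ g : Grid d, ¬ ∀ h : P.1, x (h + g) = P.2 h}

/-- The Borel `σ`-algebra of `A^{ℤ^d}` (product topology, `A` discrete). -/
@[reducible] def cfgBorel (d : ℕ) (A : Type) : MeasurableSpace (Cfg d A) :=
  @borel (Cfg d A) (@Pi.topologicalSpace (Grid d) (fun _ => A) (fun _ => ⊥))

/-- There is an equivariant map `T : F(2^{ℤ^d}) → S` such that the preimages under `T` of Borel
sets all lie in the class `C`. -/
def SolvedBy {d : ℕ} {A : Type} (S : Set (Cfg d A)) (C : Set (FreePart d) → Prop) : Prop :=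
  ∃ T : FreePart d → Cfg d A, (∀ g x, T (act g x) = shift g (T x)) ∧ (∀ x, T x ∈ S) ∧
    ∀ U : Set (Cfg d A), MeasurableSet[cfgBorel d A] U → C (T ⁻¹' U)

/-- Condition (i): there is a Borel equivariant map `F(2^{ℤ^d}) → S`. -/
def BorelSolvable {d : ℕ} {A : Type} (S : Set (Cfg d A)) : Prop :=
  SolvedBy S fun E => MeasurableSet E

/-- Condition (ii): there is a Baire measurable equivariant map `F(2^{ℤ^d}) → S`. -/
def BaireSolvable {d : ℕ} {A : Type} (S : Set (Cfg d A)) : Prop :=
  SolvedBy S fun E => BaireMeasurableSet E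

/-- Condition (iii): for every Borel probability measure `μ` on `F(2^{ℤ^d})` there is a
`μ`-measurable equivariant map `F(2^{ℤ^d}) → S`. -/
def MeasureSolvable {d : ℕ} {A : Type} (S : Set (Cfg d A)) : Prop :=
  ∀ μ : Measure (FreePart d), IsProbabilityMeasure μ → SolvedBy S fun E => NullMeasurableSet E μ

end Pool.Agent.H89.LCL
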