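import Pool.Agent.H89.LCL.Work
import Pool.Agent.H62.BS.Defs

/-!
A glueing language inside a subshift `S` gives a nonempty strongly irreducible subshift of `S`.
-/

open MeasureTheory Set Filter Topology

namespace Pool.Agent.H89.LCL

variable {d : ℕ} {A : Type}

/-- Sets described by a finite window are closed. -/
theorem isClosed_of_local [Finite A] [TopologicalSpace A] [DiscreteTopology A]
    (D : Finset (Grid d)) (C : Set (Cfg d A))
    (hloc : ∀ x y, (∀ g ∈ D, x g = y g) → x ∈ C → y ∈ C) : IsClosed C := by
  have h1 : C = (fun (x : Cfg d A) (g : D) => x g) ⁻¹'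
      ((fun (x : Cfg d A) (g : D) => x g) '' C) := by
    apply subset_antisymm (subset_preimage_image _ _)
    rintro y ⟨x, hx, he⟩
    exact hloc x y (fun g hg => congrFun he ⟨g, hg⟩) hx
  rw [h1]
  apply IsClosed.preimage
  · exact continuous_pi fun g => continuous_apply (g : Grid d)
  · exact (Set.toFinite _).isClosed

/-- Compactness: local conditions on finite windows which can be satisfied one at a time can be
satisfied together. -/
theorem exists_limit [Finite A] (C : Finset (Grid d) → Set (Cfg d A))
    (hne : ∀ D, (C D).Nonempty) (hanti : ∀ D D', D ⊆ D' → C D' ⊆ C D)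
    (hloc : ∀ D x y, (∀ g ∈ D, x g = y g) → x ∈ C D → y ∈ C D) : ∃ z, ∀ D, z ∈ C D := by
  classical
  let _ : TopologicalSpace A := ⊥
  have : DiscreteTopology A := ⟨rfl⟩
  have hclosed : ∀ D, IsClosed (C D) := fun D => isClosed_of_local D (C D) (hloc D)
  have hdir : Directed (fun s t => s ⊇ t) C := by
    intro D D'
    exact ⟨D ∪ D', hanti _ _ Finset.subset_union_left, hanti _ _ Finset.subset_union_right⟩
  obtain ⟨z, hz⟩ := IsCompact.nonempty_iInter_of_directed_nonempty_isCompact_isClosed C hdir hne
    (fun D => (hclosed D).isCompact) hclosed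
  exact ⟨z, fun D => mem_iInter.1 hz D⟩

open Pool.Agent.H62.BS (IsSubshift StronglyIrreducible) in
theorem si_of_lang [Finite A] [TopologicalSpace A] [DiscreteTopology A] {S : Set (Cfg d A)}
    (hS : IsSubshift S) {r : ℕ} {L : Finset (Grid d) → Cfg d A → Prop} (hL : Lang S r L) :
    ∃ S' ⊆ S, S'.Nonempty ∧ IsSubshift S' ∧ StronglyIrreducible S' := by
  classical
  refine ⟨{z | ∀ D, L D z}, ?_, ?_, ⟨?_, ?_⟩, ?_⟩
  · -- inside `S`
    intro z hz
    by_contra hzS
    obtain ⟨I, u, hu, hsub⟩ := isOpen_pi_iff.1 hS.closed.isOpen_compl z hzS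
    obtain ⟨s, hs, hsI⟩ := hL.sound I z (hz I)
    have : s ∈ (I : Set (Grid d)).pi u := by
      intro g hg
      rw [hsI g hg]
      exact (hu g hg).2
    exact hsub this hs
  · -- nonempty
    obtain ⟨q, hq⟩ := hL.nonempty
    exact exists_limit (fun D => {z | L D z})
      (fun D => by
        obtain ⟨q', _, hq'⟩ := hL.ext ∅ D q (Finset.empty_subset _) hq
        exact ⟨q', hq'⟩)
      (fun D D' h z hz => hL.mono D' D z h hz) (fun D x y h hx => hL.congr D x y h hx)
  · -- closed
    have h0 : {z : Cfg d A | ∀ D, L D z} = ⋂ D, {z | L D z} := by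
      ext z
      simp
    rw [h0]
    exact isClosed_iInter fun D => isClosed_of_local D _ fun x y h hx => hL.congr D x y h hx
  · -- shift invariant
    intro g x hx D
    have h1 := hL.shift (D.image (· + g)) x g (hx _)
    have h2 : (D.image (· + g)).image (· - g) = D := by
      rw [Finset.image_image]
      simp [Function.comp_def]
    rw [h2] at h1
    exact h1
  · -- strongly irreducible
    refine ⟨ball d r, ?_⟩
    intro P Q hPQ x hx y hy
    have key : ∀ D : Finset (Grid d), ∃ q, L D q ∧ ∀ g ∈ D, (g ∈ P → q g = x g) ∧
        (g ∈ Q → q g = y g) := by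
      intro D
      set D' := D.filter (fun g => g ∈ P ∨ g ∈ Q) with hD'
      set q0 : Cfg d A := fun g => if g ∈ P then x g else y g with hq0
      have hglue : L D' q0 := by
        apply hL.glue D' q0 (fun g h => (g ∈ P ↔ h ∈ P))
        · intro g _
          exact Iff.rfl
        · intro g _ h _ e
          exact e.symm
        · intro g _ h _ k _ e1 e2
          exact e1.trans e2
        · intro g hg h hh hgh
          rw [hD', Finset.mem_filter] at hg hh
          constructor
          · intro hgP
            by_contra hhP
            have hhQ : h ∈ Q := hh.2.resolve_left hhP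
            apply hPQ g hgP (h - g) hgh
            simpa using hhQ
          · intro hhP
            by_contra hgP
            have hgQ : g ∈ Q := hg.2.resolve_left hgP
            apply hPQ h hhP (g - h) (by
              have := neg_mem_ball.2 hgh
              simpa using this)
            simpa using hgQ
        · intro g hg
          by_cases hgP : g ∈ P
          · refine hL.congr _ x q0 ?_ (hx _)
            intro h hh
            rw [Finset.mem_filter] at hh
            rw [hq0]
            simp [hh.2.1 hgP]
          · refine hL.congr _ y q0 ?_ (hy _)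
            intro h hh
            rw [Finset.mem_filter] at hh
            have : h ∉ P := fun e => hgP (hh.2.2 e)
            rw [hq0]
            simp [this]
      obtain ⟨q, hq, hLq⟩ := hL.ext D' D q0 (Finset.filter_subset _ _) hglue
      refine ⟨q, hLq, ?_⟩
      intro g hg
      constructor
      · intro hgP
        rw [hq g (by rw [hD', Finset.mem_filter]; exact ⟨hg, Or.inl hgP⟩), hq0]
        simp [hgP]
      · intro hgQ
        have hgP : g ∉ P := by
          intro hgP
          apply hPQ g hgP 0 zero_mem_ball
          simpa using hgQ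
        rw [hq g (by rw [hD', Finset.mem_filter]; exact ⟨hg, Or.inr hgQ⟩), hq0]
        simp [hgP]
    obtain ⟨z, hz⟩ := exists_limit (fun D => {q | L D q ∧ ∀ g ∈ D, (g ∈ P → q g = x g) ∧
        (g ∈ Q → q g = y g)}) (fun D => key D)
      (fun D D' h q hq => ⟨hL.mono D' D q h hq.1, fun g hg => hq.2 g (h hg)⟩)
      (fun D a b h ha => ⟨hL.congr D a b h ha.1, fun g hg => by
        rw [← h g hg]
        exact ha.2 g hg⟩)
    exact ⟨z, fun D => (hz D).1, fun g hg => ((hz {g}).2 g (Finset.mem_singleton_self g)).1 hg,
      fun g hg => ((hz {g}).2 g (Finset.mem_singleton_self g)).2 hg⟩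

end Pool.Agent.H89.LCL
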