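import Pool.Agent.H89.LCL.Work

/-!
Row AF-6 of the project on `MP_6540cb_lc`: near unanimity subshifts of finite type which have a
measurable solution modulo a mixing filter have a glueing language of patterns.
-/

open MeasureTheory Set Filter Topology

namespace Pool.Agent.H89.LCL

namespace NU

theorem freq_pigeon {α ι : Type*} [Finite ι] {l : Filter α} {p : α → Prop}
    (h : ∃ᶠ x in l, p x) (c : α → ι) : ∃ i, ∃ᶠ x in l, p x ∧ c x = i := by
  by_contra hc
  have hc' : ∀ i, ∀ᶠ x in l, ¬ (p x ∧ c x = i) := fun i => by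
    by_contra h'
    exact hc ⟨i, h'⟩
  exact h ((Filter.eventually_all.2 hc').mono fun x hx hp => hx (c x) ⟨hp, rfl⟩)

variable {d : ℕ} {A : Type}

/-- frequent patterns -/
def Lg (l : Filter (FreePart d)) (T : FreePart d → Cfg d A) (D : Finset (Grid d))
    (u : Cfg d A) : Prop :=
  ∃ᶠ x in l, ∀ g ∈ D, T x g = u g

/-- generated patterns -/
inductive Gen (l : Filter (FreePart d)) (T : FreePart d → Cfg d A) {n : ℕ}
    (f : (Fin n → A) → A) (D : Finset (Grid d)) : Cfg d A → Prop
  | base (u : Cfg d A) : Lg l T D u → Gen l T f D u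
  | app (u : Fin n → Cfg d A) (q : Cfg d A) : (∀ i, Gen l T f D (u i)) →
      (∀ g ∈ D, q g = f (fun i => u i g)) → Gen l T f D q

variable {l : Filter (FreePart d)} {T : FreePart d → Cfg d A} {D D' : Finset (Grid d)}
  {u v q : Cfg d A} {n : ℕ} {f : (Fin n → A) → A}

theorem Lg.congr (h : Lg l T D u) (huv : ∀ g ∈ D, u g = v g) : Lg l T D v :=
  Filter.Frequently.mono h fun _ hx g hg => (hx g hg).trans (huv g hg)

theorem Lg.mono (hD : D' ⊆ D) (h : Lg l T D u) : Lg l T D' u :=
  Filter.Frequently.mono h fun _ hx g hg => hx g (hD hg)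

theorem Lg.shift (hl : MixFilter l) (hT : ∀ g x, T (act g x) = shift g (T x))
    (h : Lg l T D u) (g : Grid d) : Lg l T (D.image (· - g)) (shift g u) := by
  refine (hl.inv g).frequently (p := fun y => ∀ h ∈ D.image (· - g), T y h =
    Pool.Agent.H89.LCL.shift g u h) ?_
  refine Filter.Frequently.mono h fun x hx => ?_
  intro h' hh'
  obtain ⟨h, hh, rfl⟩ := Finset.mem_image.1 hh'
  rw [hT]
  simp only [Pool.Agent.H89.LCL.shift, sub_add_cancel]
  exact hx h hh

theorem Lg.ext [Finite A] (h : Lg l T D u) (K : Finset (Grid d)) (hK : D ⊆ K) :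
    ∃ u', (∀ g ∈ D, u' g = u g) ∧ Lg l T K u' := by
  classical
  obtain ⟨v, hv⟩ := freq_pigeon h (fun x => fun g : K => T x g)
  refine ⟨fun g => if hg : g ∈ K then v ⟨g, hg⟩ else u g, ?_, ?_⟩
  · intro g hg
    obtain ⟨x, hx, hxv⟩ := hv.exists
    simp only [dif_pos (hK hg)]
    rw [← hx g hg, ← hxv]
  · refine hv.mono fun x hx g hg => ?_
    simp only [dif_pos hg]
    rw [← hx.2]

theorem Gen.congr (h : Gen l T f D u) (huv : ∀ g ∈ D, u g = v g) : Gen l T f D v := by
  cases h with
  | base _ h => exact Gen.base _ (h.congr huv)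
  | app w _ h hq => exact Gen.app w _ h fun g hg => (huv g hg).symm.trans (hq g hg)

theorem Gen.mono (hD : D' ⊆ D) (h : Gen l T f D u) : Gen l T f D' u := by
  induction h with
  | base u h => exact Gen.base _ (h.mono hD)
  | app w q _ hq ih => exact Gen.app w q ih fun g hg => hq g (hD hg)

theorem Gen.shift (hl : MixFilter l) (hT : ∀ g x, T (act g x) = shift g (T x))
    (h : Gen l T f D u) (g : Grid d) : Gen l T f (D.image (· - g)) (shift g u) := by
  induction h with
  | base u h => exact Gen.base _ (h.shift hl hT g)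
  | app w q _ hq ih =>
    refine Gen.app (fun i => Pool.Agent.H89.LCL.shift g (w i)) _ ih fun h' hh' => ?_
    obtain ⟨h, hh, rfl⟩ := Finset.mem_image.1 hh'
    simp only [Pool.Agent.H89.LCL.shift, sub_add_cancel]
    exact hq h hh

theorem Gen.ext [Finite A] (h : Gen l T f D u) (K : Finset (Grid d)) (hK : D ⊆ K) :
    ∃ u', (∀ g ∈ D, u' g = u g) ∧ Gen l T f K u' := by
  induction h with
  | base u h =>
    obtain ⟨u', h1, h2⟩ := h.ext K hK
    exact ⟨u', h1, Gen.base _ h2⟩
  | app w q _ hq ih =>
    choose w' h1 h2 using ih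
    refine ⟨fun g => f (fun i => w' i g), ?_, Gen.app w' _ h2 fun g _ => rfl⟩
    intro g hg
    show f (fun i => w' i g) = q g
    rw [hq g hg]
    congr 1
    funext i
    exact h1 i g hg

theorem Gen.sound {S : Set (Cfg d A)} (hS : ∀ x : Fin n → Cfg d A, (∀ i, x i ∈ S) →
    (fun h => f (fun i => x i h)) ∈ S) (hT : ∀ x, T x ∈ S) (h : Gen l T f D u) :
    ∃ s ∈ S, ∀ g ∈ D, s g = u g := by
  induction h with
  | base u h =>
    obtain ⟨x, hx⟩ := h.exists
    exact ⟨T x, hT x, hx⟩
  | app w q _ hq ih =>
    choose s h1 h2 using ih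
    refine ⟨_, hS s h1, fun g hg => ?_⟩
    rw [hq g hg]
    congr 1
    funext i
    exact h2 i g hg

/-- Baker-Pixley: generated patterns are determined by their restrictions to sets of size `k` -/
theorem baker_pixley [Finite A] {k : ℕ} {f : (Fin (k + 1) → A) → A}
    (hf : ∀ i x y, f (Function.update (fun _ => x) i y) = x) (q : Cfg d A) :
    ∀ (N : ℕ) (D : Finset (Grid d)), D.card ≤ N →
      (∀ D' ⊆ D, D'.card ≤ k → Gen l T f D' q) → Gen l T f D q := by
  classical
  have hid : ∀ x, f (fun _ => x) = x := fun x => by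
    have := hf 0 x x
    rwa [Function.update_eq_self] at this
  intro N
  induction N with
  | zero =>
    intro D hD h
    exact h D (Finset.Subset.refl _) (by omega)
  | succ N ih =>
    intro D hD h
    by_cases hk : D.card ≤ k
    · exact h D (Finset.Subset.refl _) hk
    obtain ⟨D₀, hD₀, hcard⟩ := Finset.exists_subset_card_eq (show k + 1 ≤ D.card by omega)
    let e : Fin (k + 1) ≃ D₀ := (D₀.equivFinOfCardEq hcard).symm
    have hstep : ∀ i : Fin (k + 1), Gen l T f (D.erase (e i)) q := by
      intro i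
      refine ih _ ?_ fun D' hD' hc => h D' (hD'.trans (Finset.erase_subset _ _)) hc
      rw [Finset.card_erase_of_mem (hD₀ (e i).2)]
      omega
    choose w h1 h2 using fun i => (hstep i).ext D (Finset.erase_subset _ _)
    refine Gen.app w q h2 fun g hg => ?_
    by_cases hg0 : ∃ i, (e i : Grid d) = g
    · obtain ⟨i, hi⟩ := hg0
      have : (fun j => w j g) = Function.update (fun _ => q g) i (w i g) := by
        funext j
        by_cases hj : j = i
        · subst hj; simp
        · rw [Function.update_of_ne hj]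
          refine h1 j g (Finset.mem_erase.2 ⟨?_, hg⟩)
          rw [← hi]
          intro he
          exact hj (e.injective (Subtype.ext he)).symm
      rw [this, hf]
    · push Not at hg0
      have : (fun j => w j g) = fun _ => q g := by
        funext j
        exact h1 j g (Finset.mem_erase.2 ⟨(hg0 j).symm, hg⟩)
      rw [this, hid]

/-- products of generated patterns over disjoint classes -/
theorem gen_prod (hid : ∀ x, f (fun _ => x) = x) {ι : Type} [DecidableEq ι] (G : Finset ι)
    (c : ι → Finset (Grid d))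
    (hdisj : ∀ i ∈ G, ∀ j ∈ G, i ≠ j → ∀ h ∈ c i, h ∉ c j) (D : Finset (Grid d))
    (hfreq : ∀ u, (∀ i ∈ G, Lg l T (c i) u) → Lg l T D u) :
    ∀ u, (∀ i ∈ G, Gen l T f (c i) u) → Gen l T f D u := by
  classical
  have key : ∀ C : Finset ι, C ⊆ G → ∀ u, (∀ i ∈ C, Gen l T f (c i) u) →
      (∀ i ∈ G, i ∉ C → Lg l T (c i) u) → Gen l T f D u := by
    intro C
    induction C using Finset.induction_on with
    | empty =>
      intro _ u _ hu
      exact Gen.base _ (hfreq u fun i hi => hu i hi (by simp))
    | insert a C ha ih =>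
      intro hC u hu1 hu2
      have haG : a ∈ G := hC (Finset.mem_insert_self _ _)
      have hCG : C ⊆ G := (Finset.subset_insert _ _).trans hC
      have claim : ∀ p, Gen l T f (c a) p →
          Gen l T f D (fun h => if h ∈ c a then p h else u h) := by
        intro p hp
        induction hp with
        | base p hp =>
          refine ih hCG _ ?_ ?_
          · intro i hi
            refine (hu1 i (Finset.mem_insert_of_mem hi)).congr fun g hg => ?_
            have hne : i ≠ a := fun h => ha (h ▸ hi)
            rw [if_neg (hdisj i (hCG hi) a haG hne g hg)]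
          · intro i hi hiC
            by_cases hia : i = a
            · subst hia
              exact hp.congr fun g hg => by rw [if_pos hg]
            · refine (hu2 i hi ?_).congr fun g hg => ?_
              · simp [hia, hiC]
              · rw [if_neg (hdisj i hi a haG hia g hg)]
        | app w q _ hq ihw =>
          refine Gen.app _ _ ihw fun g _ => ?_
          by_cases hg : g ∈ c a
          · simp only [if_pos hg]
            exact hq g hg
          · simp only [if_neg hg]
            exact (hid _).symm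
      refine (claim u (hu1 a (Finset.mem_insert_self _ _))).congr fun g _ => ?_
      simp
  intro u hu
  exact key G (Finset.Subset.refl _) u hu fun i hi hi' => absurd hi hi'

theorem mix_lmeas (hl : MixFilter l) (m : ℕ) (E : Fin m → Set (FreePart d))
    (hE : ∀ i, LMeas l (E i)) (hf : ∀ i, ∃ᶠ x in l, x ∈ E i) :
    ∃ w : ℕ, ∀ g : Fin m → Grid d, (∀ i j, i ≠ j → g i - g j ∉ ball d w) →
      ∃ᶠ x in l, ∀ i, act (g i) x ∈ E i := by
  choose B hB hEB using hE
  obtain ⟨w, hw⟩ := hl.mix m B hB fun i =>
    ((hf i).and_eventually (hEB i).mem_iff).mono fun x hx => hx.2.1 hx.1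
  refine ⟨w, fun g hg => ?_⟩
  have h1 : ∀ᶠ x in l, ∀ i, (act (g i) x ∈ E i ↔ act (g i) x ∈ B i) :=
    Filter.eventually_all.2 fun i => (hl.inv (g i)).eventually (hEB i).mem_iff
  exact ((hw g hg).and_eventually h1).mono fun x hx i => (hx.2 i).2 (hx.1 i)

theorem lmeas_pattern {S : Set (Cfg d A)} (hT : SolMod l S T) (D : Finset (Grid d))
    (u : Cfg d A) : LMeas l {x | ∀ g ∈ D, T x g = u g} := by
  choose B hB hEB using fun g => hT.meas g (u g)
  refine ⟨{x | ∀ g ∈ D, x ∈ B g}, ?_, ?_⟩
  · have : {x | ∀ g ∈ D, x ∈ B g} = ⋂ g ∈ D, B g := by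
      ext x; simp
    rw [this]
    exact Finset.measurableSet_biInter D fun g _ => hB g
  · have h1 : ∀ᶠ x in l, ∀ g ∈ D, (x ∈ {x | T x g = u g} ↔ x ∈ B g) :=
      (Filter.eventually_all_finset D).2 fun g _ => (hEB g).mem_iff
    refine Filter.eventuallyEq_set.2 (h1.mono fun x hx => ?_)
    constructor
    · intro h g hg
      exact (hx g hg).1 (h g hg)
    · intro h g hg
      exact (hx g hg).2 (h g hg)

theorem exists_w [Finite A] {S : Set (Cfg d A)} (hl : MixFilter l) (hT : SolMod l S T)
    (k w' : ℕ) : ∃ w : ℕ, ∀ m : ℕ, m ≤ k → ∀ g : Fin m → Grid d,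
      (∀ i j, i ≠ j → g i - g j ∉ ball d w) → ∀ u : Fin m → Cfg d A,
      (∀ i, Lg l T (ball d w') (u i)) →
      ∃ᶠ x in l, ∀ i, ∀ h ∈ ball d w', T x (h + g i) = u i h := by
  classical
  have hne : Nonempty A := by
    have := hl.neBot
    obtain ⟨x⟩ := Filter.nonempty_of_neBot l
    exact ⟨T x 0⟩
  let ex : (ball d w' → A) → Cfg d A := fun v g => if hg : g ∈ ball d w' then v ⟨g, hg⟩ else
    Classical.choice hne
  have hex : ∀ j : (Σ m : Fin (k + 1), (Fin m → (ball d w' → A))), ∃ w : ℕ,
      (∀ i, Lg l T (ball d w') (ex (j.2 i))) → ∀ g : Fin j.1 → Grid d,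
        (∀ i i', i ≠ i' → g i - g i' ∉ ball d w) →
        ∃ᶠ x in l, ∀ i, act (g i) x ∈ {x | ∀ h ∈ ball d w', T x h = ex (j.2 i) h} := by
    intro j
    by_cases hj : ∀ i, Lg l T (ball d w') (ex (j.2 i))
    · obtain ⟨w, hw⟩ := mix_lmeas hl j.1 (fun i => {x | ∀ h ∈ ball d w', T x h = ex (j.2 i) h})
        (fun i => lmeas_pattern hT _ _) (fun i => hj i)
      exact ⟨w, fun _ => hw⟩
    · exact ⟨0, fun h => absurd h hj⟩
  choose W hW using hex
  obtain ⟨w, hw⟩ := (Set.finite_range W).bddAbove
  refine ⟨w, fun m hm g hg u hu => ?_⟩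
  let j : (Σ m : Fin (k + 1), (Fin m → (ball d w' → A))) :=
    ⟨⟨m, by omega⟩, fun i h => u i h⟩
  have hju : ∀ i : Fin m, ∀ h ∈ ball d w', ex (j.2 i) h = u i h := by
    intro i h hh
    simp only [ex, dif_pos hh]
    rfl
  have hWj : W j ≤ w := hw ⟨j, rfl⟩
  have := hW j (fun i => (hu i).congr fun h hh => (hju i h hh).symm) g (fun i i' hne hb =>
    hg i i' hne (ball_mono hWj hb))
  refine this.mono fun x hx i h hh => ?_
  have h1 := hx i h hh
  rw [hT.equi] at h1
  exact h1.trans (hju i h hh)

theorem exists_reps (w' : ℕ) (D : Finset (Grid d)) : ∃ G ⊆ D,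
    (∀ g ∈ G, ∀ h ∈ G, g ≠ h → g - h ∉ ball d w') ∧ ∀ h ∈ D, ∃ g ∈ G, h - g ∈ ball d w' := by
  classical
  induction D using Finset.induction_on with
  | empty => exact ⟨∅, by simp, by simp, by simp⟩
  | insert a D _ ih =>
    obtain ⟨G, hG, h1, h2⟩ := ih
    by_cases ha : ∃ g ∈ G, a - g ∈ ball d w'
    · refine ⟨G, hG.trans (Finset.subset_insert _ _), h1, fun h hh => ?_⟩
      rcases Finset.mem_insert.1 hh with rfl | hh
      · exact ha
      · exact h2 h hh
    · push Not at ha
      refine ⟨insert a G, Finset.insert_subset_insert _ hG, ?_, ?_⟩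
      · intro g hg h hh hne
        rcases Finset.mem_insert.1 hg with hga | hg1
        · rcases Finset.mem_insert.1 hh with hha | hh1
          · exact absurd (hga.trans hha.symm) hne
          · rw [hga]
            exact ha h hh1
        · rcases Finset.mem_insert.1 hh with hha | hh1
          · intro hb
            apply ha g hg1
            rw [← neg_mem_ball, neg_sub, ← hha]
            exact hb
          · exact h1 g hg1 h hh1 hne
      · intro h hh
        rcases Finset.mem_insert.1 hh with rfl | hh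
        · exact ⟨h, Finset.mem_insert_self _ _, by simpa using zero_mem_ball⟩
        · obtain ⟨g, hg, hb⟩ := h2 h hh
          exact ⟨g, Finset.mem_insert_of_mem hg, hb⟩

/-- mixing of generated patterns on small sets -/
theorem mix_gen [Finite A] {S : Set (Cfg d A)} (hl : MixFilter l) (hT : SolMod l S T)
    (hid : ∀ x, f (fun _ => x) = x) (k w' : ℕ) : ∃ w : ℕ, ∀ D : Finset (Grid d), D.card ≤ k →
      (∀ g ∈ D, ∀ h ∈ D, g - h ∈ ball d w → g - h ∈ ball d w') →
      (∀ g ∈ D, ∀ h ∈ D, ∀ k ∈ D, g - h ∈ ball d w' → h - k ∈ ball d w' →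
        g - k ∈ ball d w') → ∀ q : Cfg d A,
      (∀ g ∈ D, Gen l T f (D.filter (fun h => h - g ∈ ball d w')) q) → Gen l T f D q := by
  classical
  obtain ⟨w, hw⟩ := exists_w hl hT k w'
  refine ⟨w, fun D hD hnear htr q hq => ?_⟩
  obtain ⟨G, hG, h1, h2⟩ := exists_reps w' D
  refine gen_prod hid G (fun g => D.filter (fun h => h - g ∈ ball d w')) ?_ D ?_ q
    (fun g hg => hq g (hG hg))
  · intro g hg g' hg' hne h hh hh'
    rw [Finset.mem_filter] at hh hh'
    apply h1 g hg g' hg' hne
    refine htr g (hG hg) h hh.1 g' (hG hg') ?_ hh'.2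
    rw [← neg_mem_ball]
    simpa using hh.2
  · intro u hu
    let e : Fin G.card ≃ G := G.equivFin.symm
    have hsh : ∀ i : Fin G.card, ∃ u', (∀ h ∈ (D.filter (fun h => h - (e i : Grid d) ∈
        ball d w')).image (· - (e i : Grid d)), u' h = shift (e i : Grid d) u h) ∧
        Lg l T (ball d w') u' := by
      intro i
      refine ((hu (e i) (e i).2).shift hl hT.equi (e i)).ext _ ?_
      intro h hh
      obtain ⟨h', hh', rfl⟩ := Finset.mem_image.1 hh
      exact (Finset.mem_filter.1 hh').2
    choose u' hu1 hu2 using hsh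
    have := hw G.card ((Finset.card_le_card hG).trans hD) (fun i => (e i : Grid d))
      (fun i j hij hb => h1 (e i) (e i).2 (e j) (e j).2
        (fun he => hij (e.injective (Subtype.ext he)))
        (hnear _ (hG (e i).2) _ (hG (e j).2) hb)) u' hu2
    refine this.mono fun x hx g hg => ?_
    obtain ⟨g', hg', hb⟩ := h2 g hg
    obtain ⟨i, hi⟩ : ∃ i, e i = ⟨g', hg'⟩ := e.surjective _
    have hi' : (e i : Grid d) = g' := by rw [hi]
    have h3 := hx i (g - g') hb
    rw [hi', sub_add_cancel] at h3
    rw [h3, hu1 i (g - g') (by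
      rw [hi']
      exact Finset.mem_image.2 ⟨g, Finset.mem_filter.2 ⟨hg, hb⟩, rfl⟩), hi']
    simp [shift]

end NU

open NU in
/-- AF-6: near unanimity subshifts have a glueing language -/
theorem nu_lang {d : ℕ} {A : Type} [Finite A] (k : ℕ) (hk : 2 ≤ k) (f : (Fin (k + 1) → A) → A)
    (hf : ∀ i x y, f (Function.update (fun _ => x) i y) = x) {S : Set (Cfg d A)}
    (hS : ∀ x : Fin (k + 1) → Cfg d A, (∀ i, x i ∈ S) → (fun h => f (fun i => x i h)) ∈ S)
    {l : Filter (FreePart d)} (hl : MixFilter l) {T : FreePart d → Cfg d A} (hT : SolMod l S T) :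
    ∃ (r : ℕ) (L : Finset (Grid d) → Cfg d A → Prop), Lang S r L := by
  classical
  have hid : ∀ x, f (fun _ => x) = x := fun x => by
    have := hf 0 x x
    rwa [Function.update_eq_self] at this
  choose w hw using fun w' => mix_gen hl hT hid k w'
  obtain ⟨a, ha⟩ : ∃ a : ℕ → ℕ, ∀ t, a (t + 1) = max (2 * a t) (w (a t)) :=
    ⟨fun t => Nat.rec 0 (fun _ b => max (2 * b) (w b)) t, fun t => rfl⟩
  have hmono : Monotone a := monotone_nat_of_le_succ fun t => by
    rw [ha]
    exact le_trans (by omega) (le_max_left _ _)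
  refine ⟨a (k * k + 1), fun D q => Gen l T f D q, ?_⟩
  refine
    { nonempty := ?_
      congr := fun D q q' h h' => h'.congr h
      mono := fun D D' q h h' => h'.mono h
      ext := fun D K q h h' => h'.ext K h
      shift := fun D q g h => h.shift hl hT.equi g
      sound := fun D q h => h.sound hS hT.mem
      glue := ?_ }
  · have := hl.neBot
    obtain ⟨x⟩ := Filter.nonempty_of_neBot l
    exact ⟨T x, Gen.base _ (Filter.Eventually.frequently (Filter.Eventually.of_forall
      fun y g hg => by simp at hg))⟩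
  · intro D q R _ hrefl hsymm htrans hball hq
    refine baker_pixley hf q D.card D le_rfl fun D' hD' hcard => ?_
    -- pigeonhole over the scales
    let near : ℕ → Finset (Grid d × Grid d) := fun t =>
      (D' ×ˢ D').filter (fun p => p.1 - p.2 ∈ ball d (a t))
    have hnm : ∀ t, near t ⊆ near (t + 1) := fun t p hp => by
      rw [Finset.mem_filter] at hp ⊢
      exact ⟨hp.1, ball_mono (hmono (Nat.le_succ t)) hp.2⟩
    have hnc : ∀ t, (near t).card ≤ k * k := fun t => by
      refine (Finset.card_filter_le _ _).trans ?_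
      rw [Finset.card_product]
      exact Nat.mul_le_mul hcard hcard
    obtain ⟨t, ht, hte⟩ : ∃ t ≤ k * k, near (t + 1) ⊆ near t := by
      by_contra hno
      push Not at hno
      have hgrow : ∀ t ≤ k * k + 1, t ≤ (near t).card := by
        intro t
        induction t with
        | zero => intro _; omega
        | succ t ih =>
          intro ht
          have h1 := ih (by omega)
          have h2 : (near t).card < (near (t + 1)).card :=
            Finset.card_lt_card ⟨hnm t, hno t (by omega)⟩
          omega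
      have h1 := hgrow (k * k + 1) le_rfl
      have h2 := hnc (k * k + 1)
      omega
    have hback : ∀ g ∈ D', ∀ h ∈ D', g - h ∈ ball d (a (t + 1)) → g - h ∈ ball d (a t) := by
      intro g hg h hh hb
      have : (g, h) ∈ near (t + 1) :=
        Finset.mem_filter.2 ⟨Finset.mem_product.2 ⟨hg, hh⟩, hb⟩
      exact (Finset.mem_filter.1 (hte this)).2
    refine hw (a t) D' hcard ?_ ?_ q ?_
    · intro g hg h hh hb
      exact hback g hg h hh (ball_mono (by rw [ha]; exact le_max_right _ _) hb)
    · intro g hg h hh k' hk' hb1 hb2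
      apply hback g hg k' hk'
      have h3 := add_mem_ball hb1 hb2
      rw [sub_add_sub_cancel] at h3
      refine ball_mono ?_ h3
      rw [ha, ← two_mul]
      exact le_max_left _ _
    · intro g hg
      refine (hq g (hD' hg)).mono fun h hh => ?_
      rw [Finset.mem_filter] at hh ⊢
      exact ⟨hD' hh.1, hball g (hD' hg) h (hD' hh.1)
        (ball_mono (hmono (by omega)) hh.2)⟩

end Pool.Agent.H89.LCL
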