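import Pool.Agent.H89.LCL.Work

/-!
From a glueing language and a laminar family to a Borel equivariant map.
-/

open MeasureTheory Set Filter Topology

namespace Pool.Agent.H89.LCL

variable {d : ℕ} {A : Type}

/-! ### Base points of finite sets -/

/-- The lexicographically least element of a finite set. -/
noncomputable def base (K : Finset (Grid d)) : Grid d :=
  if h : K.Nonempty then ofLex ((K.image toLex).min' (h.image _)) else 0

theorem base_mem {K : Finset (Grid d)} (h : K.Nonempty) : base K ∈ K := by
  have h1 := (K.image toLex).min'_mem (h.image _)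
  rw [Finset.mem_image] at h1
  obtain ⟨a, ha, he⟩ := h1
  rw [base, dif_pos h, ← he]
  exact ha

theorem base_le {K : Finset (Grid d)} {a : Grid d} (h : a ∈ K) : toLex (base K) ≤ toLex a := by
  rw [base, dif_pos ⟨a, h⟩]
  exact (K.image toLex).min'_le _ (Finset.mem_image_of_mem _ h)

theorem base_eq {K : Finset (Grid d)} {b : Grid d} (hb : b ∈ K)
    (hle : ∀ a ∈ K, toLex b ≤ toLex a) : base K = b := by
  apply toLex.injective
  exact le_antisymm (base_le hb) (hle _ (base_mem ⟨b, hb⟩))

theorem base_image_sub {K : Finset (Grid d)} (h : K.Nonempty) (g : Grid d) :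
    base (K.image (· - g)) = base K - g := by
  apply base_eq (Finset.mem_image_of_mem _ (base_mem h))
  intro a ha
  rw [Finset.mem_image] at ha
  obtain ⟨c, hc, rfl⟩ := ha
  have := base_le hc
  have h2 : toLex (base K) - toLex g ≤ toLex c - toLex g := sub_le_sub_right this _
  exact h2

theorem image_sub_sub (K : Finset (Grid d)) (g h : Grid d) :
    (K.image (· - g)).image (· - h) = K.image (· - (g + h)) := by
  rw [Finset.image_image]
  congr 1
  funext a
  simp [sub_sub]

/-! ### Picking extensions -/

section pick

variable (L : Finset (Grid d) → Cfg d A → Prop) (a₀ : A)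

open scoped Classical in
/-- Restrict a pattern to `D` (value `a₀` outside `D`). -/
noncomputable def trunc (D : Finset (Grid d)) (q : Cfg d A) : Cfg d A :=
  fun g => if g ∈ D then q g else a₀

open scoped Classical in
/-- A chosen pattern on `K` extending the pattern `q` on `D`. -/
noncomputable def pick (K D : Finset (Grid d)) (q : Cfg d A) : Cfg d A :=
  if h : ∃ q', (∀ g ∈ D, q' g = q g) ∧ L K q' then Classical.choose h else fun _ => a₀

theorem pick_spec {K D : Finset (Grid d)} {q : Cfg d A}
    (h : ∃ q', (∀ g ∈ D, q' g = q g) ∧ L K q') :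
    (∀ g ∈ D, pick L a₀ K D q g = q g) ∧ L K (pick L a₀ K D q) := by
  rw [pick, dif_pos h]
  exact Classical.choose_spec h

end pick

/-! ### The recursion for one colour -/

section one

variable {r : ℕ} {E : ℕ → FreePart d → Set (Grid d)} (hE : Laminar r E)
  (L : Finset (Grid d) → Cfg d A → Prop) (a₀ : A)

open scoped Classical in
/-- The class of `x` at stage `n` as a finite set. -/
noncomputable def kls (hE : Laminar r E) (n : ℕ) (x : FreePart d) : Finset (Grid d) :=
  (ball d (Classical.choose (hE.bdd n))).filter (· ∈ E n x)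

theorem mem_kls {n : ℕ} {x : FreePart d} {g : Grid d} : g ∈ kls hE n x ↔ g ∈ E n x := by
  classical
  rw [kls, Finset.mem_filter]
  exact ⟨fun h => h.2, fun h => ⟨Classical.choose_spec (hE.bdd n) x h, h⟩⟩

theorem kls_act {n : ℕ} {x : FreePart d} {g : Grid d} (hg : g ∈ E n x) :
    kls hE n (act g x) = (kls hE n x).image (· - g) := by
  ext h
  rw [mem_kls, hE.trans n x g hg h, Finset.mem_image]
  constructor
  · intro hh
    exact ⟨h + g, (mem_kls hE).2 hh, by simp⟩
  · rintro ⟨k, hk, rfl⟩
    simpa using (mem_kls hE).1 hk

open scoped Classical in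
/-- The part of the class of `x` at stage `n+1` already covered at stage `n`. -/
noncomputable def dom (hE : Laminar r E) (n : ℕ) (x : FreePart d) : Finset (Grid d) :=
  (kls hE (n + 1) x).filter fun g => (0 : Grid d) ∈ E n (act g x)

theorem mem_dom {n : ℕ} {x : FreePart d} {g : Grid d} :
    g ∈ dom hE n x ↔ g ∈ E (n + 1) x ∧ (0 : Grid d) ∈ E n (act g x) := by
  classical
  rw [dom, Finset.mem_filter, mem_kls]

theorem dom_act {n : ℕ} {x : FreePart d} {g : Grid d} (hg : g ∈ E (n + 1) x) :
    dom hE n (act g x) = (dom hE n x).image (· - g) := by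
  ext h
  rw [mem_dom, hE.trans (n + 1) x g hg h, Finset.mem_image, act_act]
  constructor
  · intro hh
    exact ⟨h + g, (mem_dom hE).2 hh, by simp⟩
  · rintro ⟨k, hk, rfl⟩
    simpa using (mem_dom hE).1 hk

/-- The partial solution pattern around `x` read off from `σ`. -/
def read (σ : FreePart d → A) (x : FreePart d) : Cfg d A := fun g => σ (act g x)

theorem read_act (σ : FreePart d → A) (g : Grid d) (x : FreePart d) :
    read σ (act g x) = shift g (read σ x) := by
  funext h
  simp [read, shift, act_act]

/-- The chosen pattern in coordinates relative to the base point. -/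
noncomputable def chosen (hE : Laminar r E) (n : ℕ) (σ : FreePart d → A) (x : FreePart d) :
    Cfg d A :=
  let b := base (kls hE (n + 1) x)
  let D := (dom hE n x).image (· - b)
  pick L a₀ ((kls hE (n + 1) x).image (· - b)) D (trunc a₀ D (shift b (read σ x)))

/-- One step of the recursion. -/
noncomputable def next (hE : Laminar r E) (n : ℕ) (σ : FreePart d → A) (x : FreePart d) : A :=
  chosen L a₀ hE n σ x (0 - base (kls hE (n + 1) x))

/-- The partial solutions. -/
noncomputable def sig (hE : Laminar r E) : ℕ → FreePart d → A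
  | 0 => fun _ => a₀
  | n + 1 => next L a₀ hE n (sig hE n)

theorem chosen_act {n : ℕ} {σ : FreePart d → A} {x : FreePart d} {g : Grid d}
    (hg : g ∈ E (n + 1) x) : chosen L a₀ hE n σ (act g x) = chosen L a₀ hE n σ x := by
  have hne : (kls hE (n + 1) x).Nonempty := ⟨g, (mem_kls hE).2 hg⟩
  unfold chosen
  simp only
  rw [kls_act hE hg, dom_act hE hg, base_image_sub hne, image_sub_sub, image_sub_sub, read_act,
    shift_shift]
  simp

theorem next_act {n : ℕ} {σ : FreePart d → A} {x : FreePart d} {g : Grid d}
    (hg : g ∈ E (n + 1) x) :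
    next L a₀ hE n σ (act g x) = chosen L a₀ hE n σ x (g - base (kls hE (n + 1) x)) := by
  have hne : (kls hE (n + 1) x).Nonempty := ⟨g, (mem_kls hE).2 hg⟩
  unfold next
  rw [chosen_act hE L a₀ hg, kls_act hE hg, base_image_sub hne]
  congr 1
  abel

variable {S : Set (Cfg d A)} (hL : Lang S r L)

include hL in
/-- The invariant of the recursion. -/
theorem step {n : ℕ} {σ : FreePart d → A}
    (hσ : ∀ x, (0 : Grid d) ∈ E n x → L (kls hE n x) (read σ x)) (x : FreePart d)
    (_ : (0 : Grid d) ∈ E (n + 1) x) :
    L (kls hE (n + 1) x) (read (next L a₀ hE n σ) x) ∧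
      ∀ g ∈ dom hE n x, next L a₀ hE n σ (act g x) = σ (act g x) := by
  classical
  set K := kls hE (n + 1) x with hK
  set D := dom hE n x with hD
  set b := base K with hb
  have hDK : D ⊆ K := fun g hg => (mem_kls hE).2 ((mem_dom hE).1 hg).1
  -- the pattern on `D` is allowed
  have hLD : L D (read σ x) := by
    apply hL.glue D (read σ x) (fun g h => h - g ∈ E n (act g x))
    · intro g hg
      simpa using ((mem_dom hE).1 hg).2
    · intro g hg h _ hgh
      have e : act (h - g) (act g x) = act h x := by rw [act_act]; simp
      have := (hE.trans n (act g x) (h - g) hgh (g - h))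
      rw [e] at this
      rw [this]
      simpa using ((mem_dom hE).1 hg).2
    · intro g _ h _ k _ hgh hhk
      have e : act (h - g) (act g x) = act h x := by rw [act_act]; simp
      have := (hE.trans n (act g x) (h - g) hgh (k - h))
      rw [e] at this
      simpa using this.1 hhk
    · intro g hg h hh hgh
      apply hE.sep n (act g x) (h - g) ((mem_dom hE).1 hg).2 _ hgh
      rw [act_act]
      simpa using ((mem_dom hE).1 hh).2
    · intro g hg
      have h1 := hσ (act g x) ((mem_dom hE).1 hg).2
      have h2 := hL.shift _ _ (-g) h1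
      rw [read_act, shift_shift] at h2
      simp only [neg_add_cancel, shift_zero, sub_neg_eq_add] at h2
      refine hL.mono _ _ _ ?_ h2
      intro h hh
      rw [Finset.mem_filter] at hh
      rw [Finset.mem_image]
      exact ⟨h - g, (mem_kls hE).2 hh.2, by simp⟩
  -- the same in coordinates relative to the base point
  have hLb : L (D.image (· - b)) (trunc a₀ (D.image (· - b)) (shift b (read σ x))) := by
    refine hL.congr _ _ _ ?_ (hL.shift D (read σ x) b hLD)
    intro g hg
    rw [trunc, if_pos hg]
  have hex := hL.ext _ (K.image (· - b)) _ (Finset.image_subset_image hDK) hLb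
  have hp := pick_spec L a₀ hex
  have hch : chosen L a₀ hE n σ x = pick L a₀ (K.image (· - b)) (D.image (· - b))
      (trunc a₀ (D.image (· - b)) (shift b (read σ x))) := rfl
  rw [← hch] at hp
  constructor
  · have h3 := hL.shift _ _ (-b) hp.2
    rw [image_sub_sub] at h3
    simp only [add_neg_cancel, sub_zero] at h3
    rw [Finset.image_id'] at h3
    refine hL.congr _ _ _ ?_ h3
    intro g hg
    have : g ∈ E (n + 1) x := (mem_kls hE).1 hg
    change shift (-b) (chosen L a₀ hE n σ x) g = next L a₀ hE n σ (act g x)
    rw [next_act hE L a₀ this, shift, ← sub_eq_add_neg]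
  · intro g hg
    have hgE : g ∈ E (n + 1) x := ((mem_dom hE).1 hg).1
    rw [next_act hE L a₀ hgE]
    have hmem : g - b ∈ D.image (· - b) := Finset.mem_image_of_mem _ hg
    have := hp.1 (g - b) hmem
    rw [this, trunc, if_pos hmem, shift]
    simp [read]

include hL in
theorem sig_inv (n : ℕ) : ∀ x, (0 : Grid d) ∈ E n x → L (kls hE n x) (read (sig L a₀ hE n) x) := by
  induction n with
  | zero =>
    intro x hx
    rw [hE.zero] at hx
    exact absurd hx (by simp)
  | succ n ih =>
    intro x hx
    exact (step hE L a₀ hL ih x hx).1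

include hL in
theorem sig_succ {n : ℕ} {x : FreePart d} (hx : (0 : Grid d) ∈ E n x) :
    sig L a₀ hE (n + 1) x = sig L a₀ hE n x := by
  have h1 := (step hE L a₀ hL (sig_inv hE L a₀ hL n) x (hE.mono n x hx)).2 0
    ((mem_dom hE).2 ⟨hE.mono n x hx, by rw [act_zero]; exact hx⟩)
  rw [act_zero] at h1
  exact h1

include hE in
theorem mono_le {n m : ℕ} (h : n ≤ m) (x : FreePart d) : E n x ⊆ E m x := by
  induction h with
  | refl => exact subset_rfl
  | step _ ih => exact ih.trans (hE.mono _ x)

include hL in
theorem sig_le {n m : ℕ} (h : n ≤ m) {x : FreePart d} (hx : (0 : Grid d) ∈ E n x) :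
    sig L a₀ hE m x = sig L a₀ hE n x := by
  induction h with
  | refl => rfl
  | step hle ih => rw [sig_succ hE L a₀ hL (mono_le hE hle x hx), ih]

/-! ### Measurability -/

theorem measurableSet_kls (n : ℕ) (K : Finset (Grid d)) : MeasurableSet {x | kls hE n x = K} := by
  have : {x | kls hE n x = K} = ⋂ g : Grid d, {x | g ∈ E n x ↔ g ∈ K} := by
    ext x
    simp only [mem_ofPred_eq, mem_iInter]
    constructor
    · rintro rfl g
      exact (mem_kls hE).symm
    · intro h
      ext g
      rw [mem_kls, h]
  rw [this]
  apply MeasurableSet.iInter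
  intro g
  by_cases hg : g ∈ K
  · simp only [hg, iff_true]
    exact hE.meas n g
  · simp only [hg, iff_false]
    exact (hE.meas n g).compl

theorem measurableSet_dom (n : ℕ) (D : Finset (Grid d)) : MeasurableSet {x | dom hE n x = D} := by
  have : {x | dom hE n x = D} =
      ⋂ g : Grid d, {x | (g ∈ E (n + 1) x ∧ (0 : Grid d) ∈ E n (act g x)) ↔ g ∈ D} := by
    ext x
    simp only [mem_ofPred_eq, mem_iInter]
    constructor
    · rintro rfl g
      exact (mem_dom hE).symm
    · intro h
      ext g
      rw [mem_dom, h]
  rw [this]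
  apply MeasurableSet.iInter
  intro g
  have h1 : MeasurableSet {x | g ∈ E (n + 1) x ∧ (0 : Grid d) ∈ E n (act g x)} :=
    (hE.meas (n + 1) g).inter (measurable_act g (hE.meas n 0))
  by_cases hg : g ∈ D
  · simp only [hg, iff_true]
    exact h1
  · simp only [hg, iff_false]
    exact h1.compl

open scoped Classical in
/-- The value of `next` as a function of discrete data. -/
noncomputable def nextFun (K D : Finset (Grid d)) (p : D → A) : A :=
  pick L a₀ (K.image (· - base K)) (D.image (· - base K))
    (trunc a₀ (D.image (· - base K)) (shift (base K) (fun g => if h : g ∈ D then p ⟨g, h⟩ else a₀)))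
    (0 - base K)

theorem next_eq {n : ℕ} {σ : FreePart d → A} {x : FreePart d} {K D : Finset (Grid d)}
    (hK : kls hE (n + 1) x = K) (hD : dom hE n x = D) :
    next L a₀ hE n σ x = nextFun L a₀ K D (fun g => σ (act g x)) := by
  classical
  subst hK hD
  unfold next nextFun chosen
  simp only
  have : trunc a₀ ((dom hE n x).image (· - base (kls hE (n + 1) x)))
      (shift (base (kls hE (n + 1) x)) (read σ x)) =
      trunc a₀ ((dom hE n x).image (· - base (kls hE (n + 1) x)))
      (shift (base (kls hE (n + 1) x))
        (fun g => if h : g ∈ dom hE n x then σ (act g x) else a₀)) := by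
    funext g
    unfold trunc
    split_ifs with h
    · rw [Finset.mem_image] at h
      obtain ⟨k, hk, rfl⟩ := h
      simp only [shift, sub_add_cancel]
      rw [dif_pos hk]
      rfl
    · rfl
  rw [this]

theorem measurableSet_next [Finite A] {n : ℕ} {σ : FreePart d → A}
    (hσ : ∀ a, MeasurableSet {x | σ x = a}) (a : A) :
    MeasurableSet {x | next L a₀ hE n σ x = a} := by
  classical
  have : {x | next L a₀ hE n σ x = a} =
      ⋃ (K : Finset (Grid d)) (D : Finset (Grid d)) (p : D → A) (_ : nextFun L a₀ K D p = a),
        ({x | kls hE (n + 1) x = K} ∩ {x | dom hE n x = D}) ∩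
          ⋂ g : D, {x | σ (act g x) = p g} := by
    ext x
    simp only [mem_ofPred_eq, mem_iUnion, mem_inter_iff, mem_iInter, exists_prop]
    constructor
    · intro h
      exact ⟨_, _, fun g => σ (act g x), by rw [← next_eq hE L a₀ rfl rfl]; exact h,
        ⟨rfl, rfl⟩, fun _ => rfl⟩
    · rintro ⟨K, D, p, hp, ⟨hK, hD⟩, hg⟩
      rw [next_eq hE L a₀ hK hD, ← hp]
      congr 1
      funext g
      exact hg g
  rw [this]
  refine MeasurableSet.iUnion fun K => MeasurableSet.iUnion fun D => MeasurableSet.iUnion fun p =>
    MeasurableSet.iUnion fun _ => ?_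
  refine ((measurableSet_kls hE _ K).inter (measurableSet_dom hE n D)).inter ?_
  exact MeasurableSet.iInter fun g => measurable_act g.1 (hσ (p g))

theorem measurableSet_sig [Finite A] (n : ℕ) (a : A) :
    MeasurableSet {x | sig L a₀ hE n x = a} := by
  induction n generalizing a with
  | zero =>
    by_cases h : a₀ = a
    · simp [sig, h]
    · simp [sig, h]
  | succ n ih => exact measurableSet_next hE L a₀ ih a

end one

end Pool.Agent.H89.LCL
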