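import Pool.Agent.H89.LCL.Work

/-!
Borel laminar (toast) families of the free part `F(2^{ℤ^d})`: Borel maximal discrete sets,
covers with a bounded number of colours, and the stage by stage recursion.
-/

open MeasureTheory Set Filter Topology

namespace Pool.Agent.H89.LCL

namespace Toast

/-- The piece of the free part cut out by a finite window which separates `x` from all its
neighbours in `ball d B`. -/
def piece (d B : ℕ) (a : Σ n : ℕ, (ball d n → Bool)) : Set (FreePart d) :=
  {x | (∀ h : ball d a.1, x.1 h.1 = a.2 h) ∧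
    ∀ g ∈ ball d B, g ≠ 0 → ∃ h : ball d a.1, x.1 (h.1 + g) ≠ a.2 h}

theorem measurable_coord {d : ℕ} (h : Grid d) : Measurable fun x : FreePart d => x.1 h :=
  (measurable_pi_apply h).comp measurable_subtype_coe

theorem measurableSet_piece (d B : ℕ) (a : Σ n : ℕ, (ball d n → Bool)) :
    MeasurableSet (piece d B a) := by
  have e : piece d B a = (⋂ h : ball d a.1, {x : FreePart d | x.1 h.1 = a.2 h}) ∩
      ⋂ g ∈ ball d B, ⋂ (_ : g ≠ 0), ⋃ h : ball d a.1, {x : FreePart d | x.1 (h.1 + g) ≠ a.2 h} := by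
    ext x
    simp only [piece, mem_setOf_eq, mem_inter_iff, mem_iInter, mem_iUnion]
  rw [e]
  refine MeasurableSet.inter (MeasurableSet.iInter fun h => ?_)
    (Finset.measurableSet_biInter _ fun g _ => MeasurableSet.iInter fun _ =>
      MeasurableSet.iUnion fun h => ?_)
  · exact (measurable_coord h.1) (measurableSet_singleton (a.2 h))
  · exact ((measurable_coord (h.1 + g)) (measurableSet_singleton (a.2 h))).compl

theorem piece_sep {d B : ℕ} {a : Σ n : ℕ, (ball d n → Bool)} {x : FreePart d}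
    (hx : x ∈ piece d B a) {g : Grid d} (hg : g ∈ ball d B) (h0 : g ≠ 0) :
    act g x ∉ piece d B a := by
  intro hy
  obtain ⟨h, hh⟩ := hx.2 g hg h0
  exact hh (hy.1 h)

theorem exists_piece {d : ℕ} (B : ℕ) (x : FreePart d) :
    ∃ a : Σ n : ℕ, (ball d n → Bool), x ∈ piece d B a := by
  have h1 : ∀ g : Grid d, ∃ n : ℕ, g ≠ 0 → ∃ h ∈ ball d n, x.1 (h + g) ≠ x.1 h := by
    intro g
    by_cases h0 : g = 0
    · exact ⟨0, fun h => absurd h0 h⟩
    · have h2 := x.2 g h0
      have h3 : ∃ h, shift g x.1 h ≠ x.1 h := by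
        by_contra hc
        push_neg at hc
        exact h2 (funext hc)
      obtain ⟨h, hh⟩ := h3
      obtain ⟨n, hn⟩ := exists_mem_ball h
      exact ⟨n, fun _ => ⟨h, hn, hh⟩⟩
  choose n hn using h1
  refine ⟨⟨(ball d B).sup n, fun h => x.1 h.1⟩, fun h => rfl, ?_⟩
  intro g hg h0
  obtain ⟨h, hh, hne⟩ := hn g h0
  exact ⟨⟨h, ball_mono (Finset.le_sup hg) hh⟩, hne⟩

/-- The greedy recursion. -/
def grow (d B : ℕ) (C : Set (FreePart d)) (A : ℕ → Set (FreePart d)) : ℕ → Set (FreePart d)
  | 0 => ∅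
  | m + 1 => grow d B C A m ∪ {x | x ∈ C ∧ x ∈ A m ∧ ∀ g ∈ ball d B, act g x ∉ grow d B C A m}

theorem grow_mono {d B : ℕ} {C : Set (FreePart d)} {A : ℕ → Set (FreePart d)} :
    Monotone (grow d B C A) :=
  monotone_nat_of_le_succ fun _ => subset_union_left

theorem measurableSet_grow {d B : ℕ} {C : Set (FreePart d)} {A : ℕ → Set (FreePart d)}
    (hC : MeasurableSet C) (hA : ∀ m, MeasurableSet (A m)) (m : ℕ) :
    MeasurableSet (grow d B C A m) := by
  induction m with
  | zero => exact MeasurableSet.empty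
  | succ m ih =>
    have e : {x | x ∈ C ∧ x ∈ A m ∧ ∀ g ∈ ball d B, act g x ∉ grow d B C A m} =
        C ∩ (A m ∩ ⋂ g ∈ ball d B, (act g) ⁻¹' (grow d B C A m)ᶜ) := by
      ext x
      simp only [mem_setOf_eq, mem_inter_iff, mem_iInter, mem_preimage, mem_compl_iff]
    refine ih.union ?_
    rw [e]
    exact hC.inter ((hA m).inter (Finset.measurableSet_biInter _ fun g _ =>
      measurable_act g ih.compl))

theorem grow_subset {d B : ℕ} {C : Set (FreePart d)} {A : ℕ → Set (FreePart d)} (m : ℕ) :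
    grow d B C A m ⊆ C := by
  induction m with
  | zero => exact empty_subset _
  | succ m ih => exact union_subset ih fun x hx => hx.1

theorem grow_disc {d B : ℕ} {C : Set (FreePart d)} {A : ℕ → Set (FreePart d)}
    (hA : ∀ m, ∀ x ∈ A m, ∀ g ∈ ball d B, g ≠ 0 → act g x ∉ A m) (m : ℕ) :
    ∀ x ∈ grow d B C A m, ∀ g ∈ ball d B, g ≠ 0 → act g x ∉ grow d B C A m := by
  induction m with
  | zero => intro x hx; exact absurd hx (notMem_empty _)
  | succ m ih =>
    intro x hx g hg h0 hy
    rcases hx with hx | hx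
    · rcases hy with hy | hy
      · exact ih x hx g hg h0 hy
      · apply hy.2.2 (-g) (neg_mem_ball.2 hg)
        rw [act_act]
        simpa [act_zero] using hx
    · rcases hy with hy | hy
      · exact hx.2.2 g hg hy
      · exact hA m x hx.2.1 g hg h0 hy.2.1

/-- Borel maximal `B`-discrete subsets. -/
theorem exists_mis (d B : ℕ) (C : Set (FreePart d)) (hC : MeasurableSet C) :
    ∃ C' : Set (FreePart d), MeasurableSet C' ∧ C' ⊆ C ∧
      (∀ x ∈ C', ∀ g ∈ ball d B, g ≠ 0 → act g x ∉ C') ∧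
      ∀ x ∈ C, ∃ g ∈ ball d B, act g x ∈ C' := by
  haveI : Nonempty (Σ n : ℕ, (ball d n → Bool)) := ⟨⟨0, fun _ => true⟩⟩
  obtain ⟨e, he⟩ := exists_surjective_nat (Σ n : ℕ, (ball d n → Bool))
  have hsep : ∀ m, ∀ x ∈ piece d B (e m), ∀ g ∈ ball d B, g ≠ 0 → act g x ∉ piece d B (e m) :=
    fun m x hx g hg h0 => piece_sep hx hg h0
  refine ⟨⋃ m, grow d B C (fun m => piece d B (e m)) m,
    MeasurableSet.iUnion fun m => measurableSet_grow hC (fun m => measurableSet_piece _ _ _) m,
    iUnion_subset fun m => grow_subset m, ?_, ?_⟩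
  · intro x hx g hg h0 hy
    obtain ⟨m, hm⟩ := mem_iUnion.1 hx
    obtain ⟨m', hm'⟩ := mem_iUnion.1 hy
    exact grow_disc hsep (max m m') x (grow_mono (le_max_left m m') hm) g hg h0
      (grow_mono (le_max_right m m') hm')
  · intro x hx
    obtain ⟨a, ha⟩ := exists_piece B x
    obtain ⟨m, rfl⟩ := he a
    by_cases hex : ∃ g ∈ ball d B, act g x ∈ grow d B C (fun m => piece d B (e m)) m
    · obtain ⟨g, hg, hgx⟩ := hex
      exact ⟨g, hg, mem_iUnion.2 ⟨m, hgx⟩⟩
    · push_neg at hex
      refine ⟨0, zero_mem_ball, mem_iUnion.2 ⟨m + 1, Or.inr ?_⟩⟩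
      rw [act_zero]
      exact ⟨hx, ha, hex⟩

theorem card_packing {d R k : ℕ} (g : Fin k → Grid d) (hg : ∀ i, g i ∈ ball d (3 * R))
    (hsep : ∀ i j, i ≠ j → g i - g j ∉ ball d R) : k ≤ 6 ^ d := by
  have hinj : Function.Injective (fun i : Fin k => fun l : Fin d => (g i l) / ((R : ℤ) + 1)) := by
    intro i j hij
    by_contra hne
    apply hsep i j hne
    rw [mem_ball]
    intro l
    have h1 : g i l / ((R : ℤ) + 1) = g j l / ((R : ℤ) + 1) := congrFun hij l
    have hpos : (0 : ℤ) < (R : ℤ) + 1 := by positivity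
    have h2 := Int.emod_add_mul_ediv (g i l) ((R : ℤ) + 1)
    have h3 := Int.emod_add_mul_ediv (g j l) ((R : ℤ) + 1)
    have h4 := Int.emod_nonneg (g i l) hpos.ne'
    have h5 := Int.emod_nonneg (g j l) hpos.ne'
    have h6 := Int.emod_lt_of_pos (g i l) hpos
    have h7 := Int.emod_lt_of_pos (g j l) hpos
    rw [h1] at h2
    rw [Pi.sub_apply, abs_le]
    constructor <;> linarith
  have hmaps : ∀ i ∈ (Finset.univ : Finset (Fin k)),
      (fun l : Fin d => (g i l) / ((R : ℤ) + 1)) ∈
        Fintype.piFinset fun _ : Fin d => Finset.Icc (-3 : ℤ) 2 := by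
    intro i _
    rw [Fintype.mem_piFinset]
    intro l
    have h1 := mem_ball.1 (hg i) l
    rw [abs_le] at h1
    push_cast at h1
    have hpos : (0 : ℤ) < (R : ℤ) + 1 := by positivity
    rw [Finset.mem_Icc]
    constructor
    · rw [Int.le_ediv_iff_mul_le hpos]
      linarith [h1.1]
    · have : g i l / ((R : ℤ) + 1) < 3 := by
        rw [Int.ediv_lt_iff_lt_mul hpos]
        linarith [h1.2]
      linarith
  have := Finset.card_le_card_of_injOn _ hmaps (hinj.injOn)
  simpa [Fintype.card_piFinset] using this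

/-- Covers by a bounded number of Borel discrete sets. -/
theorem exists_cover (d : ℕ) : ∃ k : ℕ, ∀ L s : ℕ, ∃ ρ : ℕ, L ≤ ρ ∧
    ∃ C : Fin k → Set (FreePart d), (∀ i, MeasurableSet (C i)) ∧
      (∀ i, ∀ x ∈ C i, ∀ g ∈ ball d (2 * ρ + s), g ≠ 0 → act g x ∉ C i) ∧
      ∀ x, ∃ i, ∃ h ∈ ball d (ρ - L), act h x ∈ C i := by
  refine ⟨6 ^ d + 1, fun L s => ?_⟩
  set R : ℕ := 2 * L + s + 1 with hR
  refine ⟨R + L, by omega, ?_⟩
  set t : ℕ := 2 * (R + L) + s with ht
  obtain ⟨C, hCm, -, hCd, hCx⟩ := exists_mis d R univ MeasurableSet.univ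
  choose f hfm hfs hfd hfx using fun D : {D : Set (FreePart d) // MeasurableSet D} =>
    exists_mis d t D.1 D.2
  let U : ℕ → {D : Set (FreePart d) // MeasurableSet D} := fun n => Nat.rec
    (⟨∅, MeasurableSet.empty⟩) (fun _ D => ⟨D.1 ∪ f ⟨C \ D.1, hCm.diff D.2⟩, D.2.union (hfm _)⟩) n
  let F : ℕ → Set (FreePart d) := fun n => f ⟨C \ (U n).1, hCm.diff (U n).2⟩
  have hU : ∀ n, (U (n + 1)).1 = (U n).1 ∪ F n := fun n => rfl
  have hU0 : (U 0).1 = ∅ := rfl
  have hUmem : ∀ n x, x ∈ (U n).1 → ∃ i < n, x ∈ F i := by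
    intro n
    induction n with
    | zero => intro x hx; rw [hU0] at hx; exact absurd hx (notMem_empty _)
    | succ n ih =>
      intro x hx
      rw [hU] at hx
      rcases hx with hx | hx
      · obtain ⟨i, hi, hxi⟩ := ih x hx
        exact ⟨i, by omega, hxi⟩
      · exact ⟨n, by omega, hx⟩
  have hUmono : ∀ n m, n ≤ m → (U n).1 ⊆ (U m).1 := by
    intro n m hnm
    induction hnm with
    | refl => exact subset_rfl
    | step _ ih => rw [hU]; exact ih.trans subset_union_left
  have hFC : ∀ n, F n ⊆ C := fun n x hx => (hfs ⟨C \ (U n).1, hCm.diff (U n).2⟩ hx).1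
  have hFU : ∀ n, ∀ x ∈ F n, x ∉ (U n).1 := fun n x hx =>
    (hfs ⟨C \ (U n).1, hCm.diff (U n).2⟩ hx).2
  have hdisj : ∀ n m x, n ≠ m → x ∈ F n → x ∉ F m := by
    have key : ∀ n m x, n < m → x ∈ F n → x ∉ F m := by
      intro n m x hnm hn hm
      apply hFU m x hm
      apply hUmono (n + 1) m hnm
      rw [hU]
      exact Or.inr hn
    intro n m x hnm hn hm
    rcases lt_or_gt_of_ne hnm with h | h
    · exact key n m x h hn hm
    · exact key m n x h hm hn
  have hcov : ∀ x ∈ C, ∃ i < 6 ^ d + 1, x ∈ F i := by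
    intro x hx
    by_contra hcon
    push_neg at hcon
    have h1 : ∀ i : Fin (6 ^ d + 1), ∃ g ∈ ball d t, act g x ∈ F i.1 := by
      intro i
      apply hfx ⟨C \ (U i.1).1, hCm.diff (U i.1).2⟩ x
      refine ⟨hx, fun hxU => ?_⟩
      obtain ⟨j, hj, hxj⟩ := hUmem i.1 x hxU
      exact hcon j (by omega) hxj
    choose g hg hgF using h1
    have h2 : 6 ^ d + 1 ≤ 6 ^ d := by
      apply card_packing (R := R) g
      · intro i
        exact ball_mono (by omega) (hg i)
      · intro i j hij hball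
        have hne : g i - g j ≠ 0 := by
          intro h0
          rw [sub_eq_zero] at h0
          have hi := hgF i
          rw [h0] at hi
          exact hdisj i.1 j.1 _ (fun h => hij (Fin.ext h)) hi (hgF j)
        apply hCd (act (g j) x) (hFC _ (hgF j)) (g i - g j) hball hne
        rw [act_act, sub_add_cancel]
        exact hFC _ (hgF i)
    omega
  refine ⟨fun i => F i.1, fun i => hfm _, fun i x hx g hg h0 => ?_, fun x => ?_⟩
  · exact hfd ⟨C \ (U i.1).1, hCm.diff (U i.1).2⟩ x hx g hg h0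
  · obtain ⟨g, hg, hgC⟩ := hCx x (mem_univ x)
    obtain ⟨i, hi, hxi⟩ := hcov (act g x) hgC
    refine ⟨⟨i, hi⟩, g, ?_, hxi⟩
    simpa using hg

/-- The properties of one stage of a laminar family. -/
structure Stage {d : ℕ} (r δ : ℕ) (E : FreePart d → Set (Grid d)) : Prop where
  meas : ∀ g, MeasurableSet {x | g ∈ E x}
  bdd : ∀ x, E x ⊆ ball d δ
  refl : ∀ x g, g ∈ E x → (0 : Grid d) ∈ E x
  trans : ∀ x g, g ∈ E x → ∀ h, (h ∈ E (act g x) ↔ h + g ∈ E x)
  sep : ∀ x g, (0 : Grid d) ∈ E x → (0 : Grid d) ∈ E (act g x) → g ∈ ball d r → g ∈ E x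

/-- The centre of the new class of `y` (at most one element). -/
def cen {d : ℕ} (r ρ : ℕ) (C : Set (FreePart d)) (E : FreePart d → Set (Grid d))
    (y : FreePart d) : Set (Grid d) :=
  {h | act h y ∈ C ∧ (h ∈ ball d ρ ∨ ∃ e ∈ E y, h - e ∈ ball d (ρ + r))}

/-- The next stage. -/
def next {d : ℕ} (r ρ : ℕ) (C : Set (FreePart d)) (E : FreePart d → Set (Grid d))
    (y : FreePart d) : Set (Grid d) :=
  E y ∪ {g | ∃ h, h ∈ cen r ρ C E y ∧ h - g ∈ cen r ρ C E (act g y)}

section
variable {d r δ ρ : ℕ} {C : Set (FreePart d)} {E : FreePart d → Set (Grid d)}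

theorem cen_ball (hE : Stage r δ E) {y : FreePart d} {h : Grid d} (hh : h ∈ cen r ρ C E y) :
    h ∈ ball d (ρ + r + δ) := by
  rcases hh.2 with h1 | ⟨e, he, h1⟩
  · exact ball_mono (by omega) h1
  · have := add_mem_ball h1 (hE.bdd y he)
    simpa using this

theorem cen_unique (hE : Stage r δ E)
    (hC : ∀ x ∈ C, ∀ g ∈ ball d (2 * ρ + (3 * r + 2 * δ)), g ≠ 0 → act g x ∉ C)
    {y : FreePart d} {g h h' : Grid d} (hg : g ∈ ball d r) (hh : h ∈ cen r ρ C E y)
    (hh' : h' ∈ cen r ρ C E (act g y)) : h' = h - g := by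
  by_contra hne
  have h1 := cen_ball hE hh
  have h2 := cen_ball hE hh'
  have h3 : h' + g - h ∈ ball d (2 * ρ + (3 * r + 2 * δ)) :=
    ball_mono (by omega) (sub_mem_ball (add_mem_ball h2 hg) h1)
  apply hC (act h y) hh.1 _ h3
  · intro h0
    apply hne
    rw [sub_eq_zero] at h0
    rw [← h0]
    simp
  · rw [act_act, sub_add_cancel]
    have := hh'.1
    rwa [act_act] at this

theorem cen_unique' (hE : Stage r δ E)
    (hC : ∀ x ∈ C, ∀ g ∈ ball d (2 * ρ + (3 * r + 2 * δ)), g ≠ 0 → act g x ∉ C)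
    {y : FreePart d} {h h' : Grid d} (hh : h ∈ cen r ρ C E y)
    (hh' : h' ∈ cen r ρ C E y) : h' = h := by
  have := cen_unique (g := 0) hE hC zero_mem_ball hh (by rwa [act_zero])
  simpa using this

theorem cen_move (hE : Stage r δ E) {y : FreePart d} {g h : Grid d} (hg : g ∈ E y)
    (hh : h ∈ cen r ρ C E y) : h - g ∈ cen r ρ C E (act g y) := by
  refine ⟨?_, Or.inr ?_⟩
  · rw [act_act, sub_add_cancel]
    exact hh.1
  · rcases hh.2 with h1 | ⟨e, he, h1⟩
    · refine ⟨-g, ?_, ?_⟩
      · rw [hE.trans y g hg, neg_add_cancel]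
        exact hE.refl y g hg
      · have : h - g - -g = h := by simp
        rw [this]
        exact ball_mono (by omega) h1
    · refine ⟨e - g, ?_, ?_⟩
      · rw [hE.trans y g hg, sub_add_cancel]
        exact he
      · have : h - g - (e - g) = h - e := by simp
        rw [this]
        exact h1

theorem neg_mem_E (hE : Stage r δ E) {y : FreePart d} {g : Grid d} (hg : g ∈ E y) :
    -g ∈ E (act g y) := by
  rw [hE.trans y g hg, neg_add_cancel]
  exact hE.refl y g hg

theorem cen_back (hE : Stage r δ E) {y : FreePart d} {g h : Grid d} (hg : g ∈ E y)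
    (hh : h ∈ cen r ρ C E (act g y)) : h + g ∈ cen r ρ C E y := by
  have h1 := cen_move hE (neg_mem_E hE hg) hh
  rw [act_act, neg_add_cancel, act_zero, sub_neg_eq_add] at h1
  exact h1

theorem measurableSet_cen (hE : Stage r δ E) (hCm : MeasurableSet C) (h : Grid d) :
    MeasurableSet {y | h ∈ cen r ρ C E y} := by
  have e : {y | h ∈ cen r ρ C E y} = (act h) ⁻¹' C ∩
      ({_y | h ∈ ball d ρ} ∪ ⋃ e : Grid d, ({y | e ∈ E y} ∩ {_y | h - e ∈ ball d (ρ + r)})) := by
    ext y
    simp only [cen, mem_setOf_eq, mem_inter_iff, mem_preimage, mem_union, mem_iUnion]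
  rw [e]
  exact (measurable_act h hCm).inter ((MeasurableSet.const _).union
    (MeasurableSet.iUnion fun e => (hE.meas e).inter (MeasurableSet.const _)))

theorem zero_mem_next {y : FreePart d} {h : Grid d} (hh : h ∈ cen r ρ C E y) :
    (0 : Grid d) ∈ next r ρ C E y :=
  Or.inr ⟨h, hh, by rw [sub_zero, act_zero]; exact hh⟩

theorem stage_next (hE : Stage r δ E) (hCm : MeasurableSet C)
    (hC : ∀ x ∈ C, ∀ g ∈ ball d (2 * ρ + (3 * r + 2 * δ)), g ≠ 0 → act g x ∉ C) :
    Stage r (2 * (ρ + r + δ)) (next r ρ C E) := by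
  have htrans : ∀ x g, g ∈ next r ρ C E x →
      ∀ h, (h ∈ next r ρ C E (act g x) ↔ h + g ∈ next r ρ C E x) := by
    intro y g hg h
    rcases hg with hg | ⟨h0, hh0, hh1⟩
    · constructor
      · rintro (hh | ⟨a, ha, ha'⟩)
        · exact Or.inl ((hE.trans y g hg h).1 hh)
        · refine Or.inr ⟨a + g, cen_back hE hg ha, ?_⟩
          rw [act_act] at ha'
          have : a + g - (h + g) = a - h := by simp
          rwa [this]
      · rintro (hh | ⟨b, hb, hb'⟩)
        · exact Or.inl ((hE.trans y g hg h).2 hh)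
        · refine Or.inr ⟨b - g, cen_move hE hg hb, ?_⟩
          rw [act_act]
          have : b - g - h = b - (h + g) := by rw [sub_sub, add_comm g h]
          rwa [this]
    · constructor
      · rintro (hh | ⟨a, ha, ha'⟩)
        · refine Or.inr ⟨h0, hh0, ?_⟩
          have h2 := cen_move hE hh hh1
          rw [act_act] at h2
          have : h0 - (h + g) = h0 - g - h := by rw [sub_sub, add_comm g h]
          rwa [this]
        · have h3 := cen_unique' hE hC hh1 ha
          refine Or.inr ⟨h0, hh0, ?_⟩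
          rw [act_act, h3] at ha'
          have : h0 - (h + g) = h0 - g - h := by rw [sub_sub, add_comm g h]
          rwa [this]
      · rintro (hh | ⟨b, hb, hb'⟩)
        · refine Or.inr ⟨h0 - g, hh1, ?_⟩
          have h2 := cen_move hE hh hh0
          rw [act_act]
          have : h0 - g - h = h0 - (h + g) := by rw [sub_sub, add_comm g h]
          rwa [this]
        · have h3 := cen_unique' hE hC hh0 hb
          refine Or.inr ⟨h0 - g, hh1, ?_⟩
          rw [act_act]
          rw [h3] at hb'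
          have : h0 - g - h = h0 - (h + g) := by rw [sub_sub, add_comm g h]
          rwa [this]
  -- separation when the centre of `y` exists
  have hsep1 : ∀ y g, (0 : Grid d) ∈ next r ρ C E (act g y) → g ∈ ball d r →
      ∀ h ∈ cen r ρ C E y, g ∈ next r ρ C E y := by
    intro y g h0 hg h hh
    by_cases hex : ∃ h', h' ∈ cen r ρ C E (act g y)
    · obtain ⟨h', hh'⟩ := hex
      have := cen_unique hE hC hg hh hh'
      exact Or.inr ⟨h, hh, by rwa [← this]⟩
    · push_neg at hex
      have hz : (0 : Grid d) ∈ E (act g y) := by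
        rcases h0 with h0 | ⟨a, ha, -⟩
        · exact h0
        · exact absurd ha (hex a)
      rcases hh.2 with h1 | ⟨e, he, h1⟩
      · exfalso
        apply hex (h - g)
        refine ⟨by rw [act_act, sub_add_cancel]; exact hh.1, Or.inr ⟨0, hz, ?_⟩⟩
        rw [sub_zero]
        exact sub_mem_ball h1 hg
      · exact Or.inl (hE.sep y g (hE.refl y e he) hz hg)
  refine ⟨?_, ?_, ?_, htrans, ?_⟩
  · intro g
    have e : {x | g ∈ next r ρ C E x} = {x | g ∈ E x} ∪ ⋃ h : Grid d,
        ({x | h ∈ cen r ρ C E x} ∩ (act g) ⁻¹' {x | h - g ∈ cen r ρ C E x}) := by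
      ext x
      simp only [next, mem_setOf_eq, mem_union, mem_iUnion, mem_inter_iff, mem_preimage]
    rw [e]
    exact (hE.meas g).union (MeasurableSet.iUnion fun h =>
      (measurableSet_cen hE hCm h).inter (measurable_act g (measurableSet_cen hE hCm (h - g))))
  · rintro y g (hg | ⟨h, hh, hh'⟩)
    · exact ball_mono (by omega) (hE.bdd y hg)
    · have h1 := sub_mem_ball (cen_ball hE hh) (cen_ball hE hh')
      rw [sub_sub_cancel] at h1
      exact ball_mono (by omega) h1
  · rintro y g (hg | ⟨h, hh, -⟩)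
    · exact Or.inl (hE.refl y g hg)
    · exact zero_mem_next hh
  · intro y g h0 h1 hg
    by_cases hy : ∃ h, h ∈ cen r ρ C E y
    · obtain ⟨h, hh⟩ := hy
      exact hsep1 y g h1 hg h hh
    · by_cases hgy : ∃ h, h ∈ cen r ρ C E (act g y)
      · obtain ⟨h, hh⟩ := hgy
        have h2 : -g ∈ next r ρ C E (act g y) := by
          apply hsep1 (act g y) (-g) _ (neg_mem_ball.2 hg) h hh
          rw [act_act, neg_add_cancel, act_zero]
          exact h0
        have h3 := (htrans (act g y) (-g) h2 g).2 (by rw [add_neg_cancel]; exact h1)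
        rwa [act_act, neg_add_cancel, act_zero] at h3
      · push_neg at hy hgy
        have e0 : (0 : Grid d) ∈ E y := by
          rcases h0 with h0 | ⟨a, ha, -⟩
          · exact h0
          · exact absurd ha (hy a)
        have e1 : (0 : Grid d) ∈ E (act g y) := by
          rcases h1 with h1 | ⟨a, ha, -⟩
          · exact h1
          · exact absurd ha (hgy a)
        exact Or.inl (hE.sep y g e0 e1 hg)

end

theorem stage_zero {d : ℕ} (r : ℕ) : Stage r 0 (fun _ : FreePart d => (∅ : Set (Grid d))) where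
  meas := fun g => by simp
  bdd := fun _ => empty_subset _
  refl := fun _ _ h => absurd h (notMem_empty _)
  trans := fun _ _ h => absurd h (notMem_empty _)
  sep := fun _ _ h => absurd h (notMem_empty _)

end Toast

open Toast

/-- AF-1: Borel laminar families of the free part, finitely many of which exhaust every orbit. -/
theorem exists_toast (d r : ℕ) : ∃ (k : ℕ) (E : Fin k → ℕ → FreePart d → Set (Grid d)),
    (∀ i, Laminar r (E i)) ∧ ∀ x, ∃ i, ∀ g, ∃ n, g ∈ E i n x := by
  obtain ⟨k, hk⟩ := exists_cover d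
  choose ρ hρ C hCm hCd hCx using hk
  let δ : ℕ → ℕ := fun n => Nat.rec 0 (fun n D => 2 * (ρ n (3 * r + 2 * D) + r + D)) n
  have hδ : ∀ n, δ (n + 1) = 2 * (ρ n (3 * r + 2 * δ n) + r + δ n) := fun n => rfl
  let E : Fin k → ℕ → FreePart d → Set (Grid d) := fun i n => Nat.rec (fun _ => ∅)
    (fun n F => next r (ρ n (3 * r + 2 * δ n)) (C n (3 * r + 2 * δ n) i) F) n
  have hE0 : ∀ i, E i 0 = fun _ => ∅ := fun i => rfl
  have hE1 : ∀ i n, E i (n + 1) =
      next r (ρ n (3 * r + 2 * δ n)) (C n (3 * r + 2 * δ n) i) (E i n) := fun i n => rfl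
  have hst : ∀ i n, Stage r (δ n) (E i n) := by
    intro i n
    induction n with
    | zero => exact stage_zero r
    | succ n ih =>
      rw [hE1, hδ]
      exact stage_next ih (hCm _ _ i) (hCd _ _ i)
  refine ⟨k, E, fun i => ?_, fun x => ?_⟩
  · exact
      { zero := fun x => rfl
        meas := fun n g => (hst i n).meas g
        bdd := fun n => ⟨δ n, (hst i n).bdd⟩
        refl := fun n => (hst i n).refl
        trans := fun n => (hst i n).trans
        mono := fun n x => subset_union_left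
        sep := fun n => (hst i n).sep }
  · have h1 : ∀ n, ∃ i, ∃ h ∈ ball d (ρ n (3 * r + 2 * δ n) - n),
        act h x ∈ C n (3 * r + 2 * δ n) i := fun n => hCx _ _ x
    choose c h hh hhC using h1
    have h2 : ∃ i, ∃ᶠ n in atTop, c n = i := by
      by_contra hcon
      push_neg at hcon
      have h4 := (eventually_all (l := (atTop : Filter ℕ))).2 hcon
      obtain ⟨n, hn⟩ := h4.exists
      exact hn (c n) rfl
    obtain ⟨i, hi⟩ := h2
    refine ⟨i, fun g => ?_⟩
    obtain ⟨m, hm⟩ := exists_mem_ball g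
    obtain ⟨n, hn, hmn⟩ := (hi.and_eventually (eventually_ge_atTop m)).exists
    refine ⟨n + 1, ?_⟩
    rw [hE1]
    have hc := hhC n
    rw [hn] at hc
    have hL := hρ n (3 * r + 2 * δ n)
    refine Or.inr ⟨h n, ⟨hc, Or.inl (ball_mono (by omega) (hh n))⟩, ?_, Or.inl ?_⟩
    · rw [act_act, sub_add_cancel]
      exact hc
    · exact ball_mono (by omega) (sub_mem_ball (hh n) hm)

end Pool.Agent.H89.LCL
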