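import Pool.Agent.H89.LCL.Defs

/-!
Working definitions for `MP_6540cb_lc` (not used in the final statements): boxes, laminar families,
glueing languages, mixing filters.
-/

open MeasureTheory Set Filter Topology

namespace Pool.Agent.H89.LCL

/-- The box `[-n,n]^d`. -/
noncomputable def ball (d n : ℕ) : Finset (Grid d) := Fintype.piFinset fun _ => Finset.Icc (-(n : ℤ)) n

theorem mem_ball {d n : ℕ} {g : Grid d} : g ∈ ball d n ↔ ∀ i, |g i| ≤ n := by
  simp [ball, Fintype.mem_piFinset, abs_le]

theorem zero_mem_ball {d n : ℕ} : (0 : Grid d) ∈ ball d n := by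
  simp [mem_ball]

theorem neg_mem_ball {d n : ℕ} {g : Grid d} : -g ∈ ball d n ↔ g ∈ ball d n := by
  simp [mem_ball]

theorem add_mem_ball {d n m : ℕ} {g h : Grid d} (hg : g ∈ ball d n) (hh : h ∈ ball d m) :
    g + h ∈ ball d (n + m) := by
  rw [mem_ball] at *
  intro i
  have := hg i
  have := hh i
  simp only [Pi.add_apply, Nat.cast_add]
  exact (abs_add_le _ _).trans (by linarith)

theorem sub_mem_ball {d n m : ℕ} {g h : Grid d} (hg : g ∈ ball d n) (hh : h ∈ ball d m) :
    g - h ∈ ball d (n + m) := by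
  rw [sub_eq_add_neg]
  exact add_mem_ball hg (neg_mem_ball.2 hh)

theorem ball_mono {d n m : ℕ} (h : n ≤ m) : ball d n ⊆ ball d m := by
  intro g hg
  rw [mem_ball] at *
  intro i
  exact (hg i).trans (by exact_mod_cast h)

theorem exists_mem_ball {d : ℕ} (g : Grid d) : ∃ n, g ∈ ball d n := by
  refine ⟨∑ i, (g i).natAbs, ?_⟩
  rw [mem_ball]
  intro i
  rw [Int.abs_eq_natAbs]
  exact_mod_cast Finset.single_le_sum (f := fun i => (g i).natAbs) (fun _ _ => Nat.zero_le _)
    (Finset.mem_univ i)

theorem act_act {d : ℕ} (g h : Grid d) (x : FreePart d) : act g (act h x) = act (g + h) x :=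
  Subtype.ext (shift_shift g h x.1)

theorem act_zero {d : ℕ} (x : FreePart d) : act 0 x = x := Subtype.ext (shift_zero x.1)

theorem act_ne {d : ℕ} {g : Grid d} (hg : g ≠ 0) (x : FreePart d) : act g x ≠ x := fun h =>
  x.2 g hg (congrArg Subtype.val h)

theorem act_injective_left {d : ℕ} {g h : Grid d} {x : FreePart d} (e : act g x = act h x) :
    g = h := by
  by_contra hne
  have h1 : act (g - h) (act h x) = act h x := by rw [act_act]; simpa using e
  exact act_ne (sub_ne_zero.2 hne) _ h1

theorem measurable_act {d : ℕ} (g : Grid d) : Measurable (act g : FreePart d → FreePart d) := by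
  apply Measurable.subtype_mk
  apply measurable_pi_lambda
  intro h
  exact (measurable_pi_apply (h + g)).comp measurable_subtype_coe

theorem continuous_act {d : ℕ} (g : Grid d) : Continuous (act g : FreePart d → FreePart d) := by
  apply Continuous.subtype_mk
  apply continuous_pi
  intro h
  exact (continuous_apply (h + g)).comp continuous_subtype_val

/-- One stage-by-stage laminar (toast) family: `g ∈ E n x` says that `x` and `g · x` lie in the
same class at stage `n`. -/
structure Laminar {d : ℕ} (r : ℕ) (E : ℕ → FreePart d → Set (Grid d)) : Prop where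
  zero : ∀ x, E 0 x = ∅
  meas : ∀ n g, MeasurableSet {x | g ∈ E n x}
  bdd : ∀ n, ∃ δ, ∀ x, E n x ⊆ ball d δ
  refl : ∀ n x g, g ∈ E n x → (0 : Grid d) ∈ E n x
  trans : ∀ n x g, g ∈ E n x → ∀ h, (h ∈ E n (act g x) ↔ h + g ∈ E n x)
  mono : ∀ n x, E n x ⊆ E (n + 1) x
  sep : ∀ n x g, (0 : Grid d) ∈ E n x → (0 : Grid d) ∈ E n (act g x) → g ∈ ball d r → g ∈ E n x

/-- A language of finite patterns (`L D q`: the pattern `q` restricted to `D` is allowed) which
glues patterns on classes at distance more than `r`. -/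
structure Lang {d : ℕ} {A : Type} (S : Set (Cfg d A)) (r : ℕ)
    (L : Finset (Grid d) → Cfg d A → Prop) : Prop where
  nonempty : ∃ q, L ∅ q
  congr : ∀ D q q', (∀ g ∈ D, q g = q' g) → L D q → L D q'
  mono : ∀ D D' q, D' ⊆ D → L D q → L D' q
  ext : ∀ D K q, D ⊆ K → L D q → ∃ q', (∀ g ∈ D, q' g = q g) ∧ L K q'
  shift : ∀ D q g, L D q → L (D.image (· - g)) (shift g q)
  sound : ∀ D q, L D q → ∃ s ∈ S, ∀ g ∈ D, s g = q g
  glue : ∀ (D : Finset (Grid d)) (q : Cfg d A) (R : Grid d → Grid d → Prop) [DecidableRel R],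
    (∀ g ∈ D, R g g) → (∀ g ∈ D, ∀ h ∈ D, R g h → R h g) →
    (∀ g ∈ D, ∀ h ∈ D, ∀ k ∈ D, R g h → R h k → R g k) →
    (∀ g ∈ D, ∀ h ∈ D, h - g ∈ ball d r → R g h) →
    (∀ g ∈ D, L (D.filter (R g)) q) → L D q

/-- A σ-filter on the free part (comeager sets, conull sets) which is shift invariant and mixing
on Borel sets. -/
structure MixFilter {d : ℕ} (l : Filter (FreePart d)) : Prop where
  neBot : l.NeBot
  inter : CountableInterFilter l
  inv : ∀ g, Tendsto (act g) l l
  mix : ∀ (m : ℕ) (E : Fin m → Set (FreePart d)), (∀ i, MeasurableSet (E i)) →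
    (∀ i, ∃ᶠ x in l, x ∈ E i) → ∃ w : ℕ, ∀ g : Fin m → Grid d,
      (∀ i j, i ≠ j → g i - g j ∉ ball d w) → ∃ᶠ x in l, ∀ i, act (g i) x ∈ E i

/-- The set `E` agrees with a Borel set up to the filter `l`. -/
def LMeas {d : ℕ} (l : Filter (FreePart d)) (E : Set (FreePart d)) : Prop :=
  ∃ B : Set (FreePart d), MeasurableSet B ∧ E =ᶠ[l] B

/-- An equivariant map into `S` which is measurable modulo the filter `l`. -/
structure SolMod {d : ℕ} {A : Type} (l : Filter (FreePart d)) (S : Set (Cfg d A))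
    (T : FreePart d → Cfg d A) : Prop where
  equi : ∀ g x, T (act g x) = shift g (T x)
  mem : ∀ x, T x ∈ S
  meas : ∀ g a, LMeas l {x | T x g = a}

end Pool.Agent.H89.LCL
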